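import Pool.Agent.SNS.Fin

/-! A smooth kernel with integral one and the transforms of its derivatives. -/

open MeasureTheory Filter Topology Set
open scoped FourierTransform SchwartzMap ContDiff ComplexConjugate RealInnerProductSpace

namespace SNS.AVG

namespace BMP

/-- a bump function -/
noncomputable def B : ContDiffBump (0 : E) := ⟨1, 2, one_pos, one_lt_two⟩

/-- the kernel -/
noncomputable def ga : E → ℝ := B.normed (volume : Measure E)

lemma ga_contDiff : ContDiff ℝ ∞ ga := ContDiffBump.contDiff_normed B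

lemma ga_compact : HasCompactSupport ga := ContDiffBump.hasCompactSupport_normed B

lemma gc_contDiff : ContDiff ℝ ∞ (fun y : E => (ga y : ℂ)) :=
  Complex.ofRealCLM.contDiff.comp ga_contDiff

lemma gc_compact : HasCompactSupport (fun y : E => (ga y : ℂ)) :=
  ga_compact.comp_left (g := fun t : ℝ => (t : ℂ)) Complex.ofReal_zero

lemma gc_fderiv (y v : E) : fderiv ℝ (fun y : E => (ga y : ℂ)) y v = (fderiv ℝ ga y v : ℂ) := by
  have h1 : DifferentiableAt ℝ ga y := (ga_contDiff.differentiable (by simp)) y
  have h2 : HasFDerivAt (fun y : E => (ga y : ℂ)) (Complex.ofRealCLM.comp (fderiv ℝ ga y)) y :=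
    Complex.ofRealCLM.hasFDerivAt.comp y h1.hasFDerivAt
  rw [h2.fderiv]
  rfl

end BMP

open BMP in
theorem bump : ∃ (γ : E → ℝ) (γ' : Fin 3 → E → ℝ),
    Integrable γ (volume : Measure E) ∧ ∫ y : E, γ y = 1 ∧
    Integrable (fun y : E => ‖y‖ * ‖γ y‖) (volume : Measure E) ∧
    (∀ i, Integrable (γ' i) (volume : Measure E)) ∧
    (∀ i ξ, 𝓕 (fun y : E => (γ' i y : ℂ)) ξ =
      2 * Real.pi * Complex.I * (ξ i : ℂ) * 𝓕 (fun y : E => (γ y : ℂ)) ξ) := by
  have hd : Continuous (fderiv ℝ ga) := ga_contDiff.continuous_fderiv (by simp)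
  have hdc : Continuous (fderiv ℝ (fun y : E => (ga y : ℂ))) :=
    gc_contDiff.continuous_fderiv (by simp)
  have hci : Integrable (fun y : E => (ga y : ℂ)) (volume : Measure E) :=
    gc_contDiff.continuous.integrable_of_hasCompactSupport gc_compact
  have hfi : Integrable (fderiv ℝ (fun y : E => (ga y : ℂ))) (volume : Measure E) :=
    hdc.integrable_of_hasCompactSupport (gc_compact.fderiv ℝ)
  refine ⟨ga, fun i y => fderiv ℝ ga y (bb i),
    ga_contDiff.continuous.integrable_of_hasCompactSupport ga_compact,
    ContDiffBump.integral_normed B, ?_, fun i => ?_, fun i ξ => ?_⟩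
  · refine Continuous.integrable_of_hasCompactSupport ?_ ?_
    · exact continuous_norm.mul ga_contDiff.continuous.norm
    · exact ga_compact.norm.mul_left
  · refine Continuous.integrable_of_hasCompactSupport ?_ ?_
    · exact hd.clm_apply continuous_const
    · exact (ga_compact.fderiv ℝ).comp_left (g := fun L : E →L[ℝ] ℝ => L (bb i)) rfl
  · have h1 : (fun y : E => ((fderiv ℝ ga y (bb i) : ℝ) : ℂ)) =
        fun y : E => fderiv ℝ (fun y : E => (ga y : ℂ)) y (bb i) := by
      funext y
      rw [gc_fderiv]
    rw [h1, ← Real.fourier_continuousLinearMap_apply hfi,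
      Real.fourier_fderiv hci (gc_contDiff.differentiable (by simp)) hfi,
      VectorFourier.fourierSMulRight_apply]
    have h2 : (innerSL ℝ ξ) (bb i) = ξ i := by
      rw [innerSL_apply_apply, bb, EuclideanSpace.inner_single_right]
      simp
    simp only [neg_apply, h2]
    rw [smul_eq_mul, Complex.real_smul]
    push_cast
    ring

end SNS.AVG
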