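import Pool.Agent.AVG.Mul

/-! AVG: an even smooth kernel. -/

open MeasureTheory Filter Topology Set
open scoped FourierTransform SchwartzMap ContDiff ComplexConjugate RealInnerProductSpace

namespace SNS.AVG

/-- even kernels with a second moment -/
structure Ker2 (κ : E → ℝ) : Prop extends Ker κ where
  even : ∀ y, κ (-y) = κ y
  mom2 : Integrable (fun y : E => ‖y‖ ^ 2 * ‖κ y‖) (volume : Measure E)

open BMP in
theorem bump2 : ∃ (γ : E → ℝ) (γ' : Fin 3 → E → ℝ), Ker2 γ ∧ Der γ γ' := by
  have hd : Continuous (fderiv ℝ ga) := ga_contDiff.continuous_fderiv (by simp)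
  have hdc : Continuous (fderiv ℝ (fun y : E => (ga y : ℂ))) :=
    gc_contDiff.continuous_fderiv (by simp)
  have hci : Integrable (fun y : E => (ga y : ℂ)) (volume : Measure E) :=
    gc_contDiff.continuous.integrable_of_hasCompactSupport gc_compact
  have hfi : Integrable (fderiv ℝ (fun y : E => (ga y : ℂ))) (volume : Measure E) :=
    hdc.integrable_of_hasCompactSupport (gc_compact.fderiv ℝ)
  refine ⟨ga, fun i y => fderiv ℝ ga y (bb i), ⟨⟨?_, ?_, ?_⟩, ?_, ?_⟩, ⟨fun i => ?_,
    fun i ξ => ?_⟩⟩
  · exact ga_contDiff.continuous.integrable_of_hasCompactSupport ga_compact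
  · refine Continuous.integrable_of_hasCompactSupport ?_ ?_
    · exact continuous_norm.mul ga_contDiff.continuous.norm
    · exact ga_compact.norm.mul_left
  · exact ContDiffBump.integral_normed B
  · exact fun y => ContDiffBump.normed_neg B y
  · refine Continuous.integrable_of_hasCompactSupport ?_ ?_
    · exact (continuous_norm.pow 2).mul ga_contDiff.continuous.norm
    · exact ga_compact.norm.mul_left
  · refine Continuous.integrable_of_hasCompactSupport ?_ ?_
    · exact hd.clm_apply continuous_const
    · exact (ga_compact.fderiv ℝ).comp_left (g := fun L : E →L[ℝ] ℝ => L (bb i)) rfl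
  · unfold kf
    have h1 : (fun y : E => ((fderiv ℝ ga y (bb i) : ℝ) : ℂ)) =
        fun y : E => fderiv ℝ (fun y : E => (ga y : ℂ)) y (bb i) := by
      funext y
      rw [gc_fderiv]
    rw [h1, ← Real.fourier_continuousLinearMap_apply hfi,
      Real.fourier_fderiv hci (gc_contDiff.differentiable (by simp)) hfi,
      VectorFourier.fourierSMulRight_apply]
    have h2 : (innerSL ℝ ξ) (bb i) = ξ i := by
      rw [innerSL_apply_apply, bb, EuclideanSpace.inner_single_right]
      simp
    simp only [neg_apply, h2]
    rw [smul_eq_mul, Complex.real_smul]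
    push_cast
    ring

end SNS.AVG
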