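import Pool.Agent.AVG.Sq

/-! AVG: averages over balls. -/

open MeasureTheory Filter Topology Set
open scoped ContDiff

namespace SNS.AVG

/-- the normalised indicator of the unit ball -/
noncomputable def bk : E → ℝ :=
  (Metric.ball (0 : E) 1).indicator fun _ => ((volume : Measure E).real (Metric.ball 0 1))⁻¹

theorem vol_pos : 0 < (volume : Measure E).real (Metric.ball 0 1) :=
  ENNReal.toReal_pos (Metric.measure_ball_pos _ _ one_pos).ne' measure_ball_lt_top.ne

theorem bk_mul_int (f : E → ℝ) (hf : Continuous f) :
    Integrable (fun y : E => f y * ‖bk y‖) (volume : Measure E) := by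
  have h1 : (fun y : E => f y * ‖bk y‖) = (Metric.ball (0 : E) 1).indicator
      fun y => f y * ((volume : Measure E).real (Metric.ball 0 1))⁻¹ := by
    funext y
    unfold bk
    by_cases h : y ∈ Metric.ball (0 : E) 1
    · rw [indicator_of_mem h, indicator_of_mem h,
        Real.norm_of_nonneg (inv_nonneg.2 vol_pos.le)]
    · rw [indicator_of_notMem h, indicator_of_notMem h, norm_zero, mul_zero]
  rw [h1, integrable_indicator_iff measurableSet_ball]
  refine IntegrableOn.mono_set ?_ Metric.ball_subset_closedBall
  exact (hf.mul continuous_const).continuousOn.integrableOn_compact (isCompact_closedBall 0 1)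

theorem bk_ker2 : Ker2 bk := by
  refine ⟨⟨?_, ?_, ?_⟩, fun y => ?_, ?_⟩
  · unfold bk
    rw [integrable_indicator_iff measurableSet_ball]
    exact integrableOn_const measure_ball_lt_top.ne (by simp)
  · exact bk_mul_int _ continuous_norm
  · unfold bk
    rw [integral_indicator measurableSet_ball, setIntegral_const, smul_eq_mul]
    exact mul_inv_cancel₀ vol_pos.ne'
  · unfold bk
    by_cases h : y ∈ Metric.ball (0 : E) 1
    · have h' : -y ∈ Metric.ball (0 : E) 1 := by simpa using h
      rw [indicator_of_mem h, indicator_of_mem h']
    · have h' : -y ∉ Metric.ball (0 : E) 1 := by simpa using h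
      rw [indicator_of_notMem h, indicator_of_notMem h']
  · exact bk_mul_int _ (continuous_norm.pow 2)

/-- the kernel average is the mean over the ball -/
theorem bk_average (v : E → E) {R : ℝ} (hR : 0 < R) (x : E) :
    ∫ y : E, bk y • v (x - R • y) = ⨍ y in Metric.ball x R, v y := by
  have hV := vol_pos
  set V := (volume : Measure E).real (Metric.ball 0 1) with hVdef
  set f : E → E := fun z => (Metric.ball (0 : E) R).indicator (fun z => v (x - z)) z with hf
  have h1 : ∀ y : E, bk y • v (x - R • y) = V⁻¹ • f (R • y) := by
    intro y
    rw [hf]
    simp only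
    unfold bk
    by_cases h : y ∈ Metric.ball (0 : E) 1
    · have h' : R • y ∈ Metric.ball (0 : E) R := by
        rw [mem_ball_zero_iff] at h ⊢
        rw [norm_smul, Real.norm_of_nonneg hR.le]
        nlinarith
      rw [indicator_of_mem h, indicator_of_mem h']
    · have h' : R • y ∉ Metric.ball (0 : E) R := by
        rw [mem_ball_zero_iff] at h ⊢
        rw [norm_smul, Real.norm_of_nonneg hR.le]
        intro h2
        apply h
        nlinarith
      rw [indicator_of_notMem h, indicator_of_notMem h', zero_smul, smul_zero]
  have h2 : ∫ z : E, f z = ∫ y in Metric.ball x R, v y := by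
    have h3 : ∀ y : E, (Metric.ball x R).indicator v (x - y) = f y := by
      intro y
      rw [hf]
      simp only
      by_cases h : y ∈ Metric.ball (0 : E) R
      · have h' : x - y ∈ Metric.ball x R := by
          rw [mem_ball_zero_iff] at h
          rw [mem_ball_iff_norm]
          simpa using h
        rw [indicator_of_mem h, indicator_of_mem h']
      · have h' : x - y ∉ Metric.ball x R := by
          rw [mem_ball_zero_iff] at h
          rw [mem_ball_iff_norm]
          simpa using h
        rw [indicator_of_notMem h, indicator_of_notMem h']
    rw [← integral_indicator measurableSet_ball,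
      ← integral_sub_left_eq_self (fun y => (Metric.ball x R).indicator v y) volume x]
    exact integral_congr_ae (Eventually.of_forall fun y => (h3 y).symm)
  have h4 : (volume : Measure E).real (Metric.ball x R) = R ^ 3 * V := by
    have h6 : Module.finrank ℝ E = 3 := by simp
    rw [Measure.real, Measure.addHaar_ball (volume : Measure E) x hR.le, ENNReal.toReal_mul,
      h6, ENNReal.toReal_ofReal (by positivity)]
    rfl
  simp_rw [h1]
  rw [integral_smul, Measure.integral_comp_smul, h2, setAverage_eq, h4]
  have h6 : Module.finrank ℝ E = 3 := by simp
  rw [h6, abs_of_pos (by positivity), smul_smul]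
  congr 1
  rw [mul_inv]
  ring

end SNS.AVG
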