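import Pool.Agent.SNS.Fin

/-! AVG-CON: consistency of the `L¹` and the `L²` Fourier transforms. -/

open MeasureTheory Filter Topology Set
open scoped FourierTransform SchwartzMap ContDiff ComplexConjugate RealInnerProductSpace

namespace SNS.AVG

namespace CON

/-- an `L²` function with transform `W` is the inverse Fourier integral of `W` -/
theorem ae_inv {g W : E → ℂ} (H : IsFT g W) (hW : Integrable W (volume : Measure E)) :
    g =ᵐ[volume] 𝓕⁻ W := by
  refine ae_eq_of_integral_contDiff_smul_eq (H.memg.locallyIntegrable (by norm_num))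
    (INV.continuous_inv hW).locallyIntegrable fun θ hθ hc => ?_
  set Φ : 𝓢(E, ℂ) := FTL.ts θ hθ hc with hΦ
  have h1 := H.test (𝓕⁻ Φ : 𝓢(E, ℂ))
  rw [FourierTransform.fourier_fourierInv_eq] at h1
  have e : ∀ f : E → ℂ, ∫ x : E, θ x • f x = ∫ x : E, f x * Φ x := by
    intro f
    refine integral_congr_ae (Eventually.of_forall fun y => ?_)
    simp only [hΦ, FTL.ts_apply, Complex.real_smul]
    ring
  rw [e, e, ← h1, INV.fourierInv_swap hW Φ.integrable, SchwartzMap.fourierInv_coe]

end CON

theorem isFT_inv {W : E → ℂ} (hW : Integrable W (volume : Measure E))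
    (hW2 : MemLp W 2 (volume : Measure E)) : IsFT (𝓕⁻ W) W := by
  have h1 := isFT_Lp (𝓕⁻ (hW2.toLp W) : Lp ℂ 2 (volume : Measure E))
  rw [FourierTransform.fourier_fourierInv_eq] at h1
  have h2 : IsFT ((𝓕⁻ (hW2.toLp W) : Lp ℂ 2 (volume : Measure E)) : E → ℂ) W :=
    h1.congr EventuallyEq.rfl hW2.coeFn_toLp
  exact h2.congr (CON.ae_inv h2 hW) EventuallyEq.rfl

end SNS.AVG
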