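import Pool.Agent.SNS.Fin

/-! AVG: derivatives of the inverse Fourier transform of a function with a first moment
(helper97). -/

open MeasureTheory Filter Topology Set
open scoped FourierTransform SchwartzMap ContDiff ComplexConjugate RealInnerProductSpace

namespace SNS.AVG

theorem der {W : E → ℂ} (hW : Integrable W (volume : Measure E))
    (h1 : Integrable (fun ξ : E => ‖ξ‖ * ‖W ξ‖) (volume : Measure E)) :
    ContDiff ℝ 1 (𝓕⁻ W : E → ℂ) ∧
      ∀ i x, Dc (bb i) (𝓕⁻ W) x =
        𝓕⁻ (fun ξ : E => 2 * Real.pi * Complex.I * (ξ i : ℂ) * W ξ) x := by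
  have hcomp : (𝓕⁻ W : E → ℂ) = fun x => (𝓕 W : E → ℂ) (-x) := by
    ext x
    exact Real.fourierInv_eq_fourier_neg W x
  constructor
  · rw [hcomp]
    have h2 : ContDiff ℝ ((1 : ℕ∞) : WithTop ℕ∞) (𝓕 W : E → ℂ) := by
      refine Real.contDiff_fourier fun n hn => ?_
      have hn' : n ≤ 1 := by exact_mod_cast hn
      interval_cases n
      · simpa using hW.norm
      · simpa using h1
    have h3 : ContDiff ℝ 1 (𝓕 W : E → ℂ) := by simpa using h2
    exact h3.comp contDiff_neg
  · intro i x
    have h3 := Real.hasFDerivAt_fourier hW h1 (-x)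
    have h4 : HasFDerivAt (fun y : E => -y) (-(ContinuousLinearMap.id ℝ E)) x :=
      (hasFDerivAt_id x).neg
    have h5 : HasFDerivAt (𝓕⁻ W : E → ℂ)
        (((𝓕 (VectorFourier.fourierSMulRight (innerSL ℝ) W) : E → (E →L[ℝ] ℂ)) (-x)).comp
          (-(ContinuousLinearMap.id ℝ E))) x := by
      rw [hcomp]
      exact HasFDerivAt.comp x h3 h4
    have hint : Integrable (VectorFourier.fourierSMulRight (innerSL ℝ) W)
        (volume : Measure E) := by
      refine (h1.const_mul (2 * Real.pi * ‖(innerSL ℝ : E →L[ℝ] E →L[ℝ] ℝ)‖)).mono'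
        hW.1.fourierSMulRight (Eventually.of_forall fun v => ?_)
      have := VectorFourier.norm_fourierSMulRight_le (innerSL ℝ) W v
      calc _ ≤ _ := this
        _ = _ := by ring
    unfold Dc
    rw [h5.fderiv, ContinuousLinearMap.comp_apply]
    have h6 : (-(ContinuousLinearMap.id ℝ E)) (bb i) = -(bb i) := rfl
    rw [h6, map_neg, Real.fourier_continuousLinearMap_apply hint,
      ← Real.fourierInv_eq_fourier_neg, Real.fourierInv_eq', Real.fourierInv_eq',
      ← integral_neg]
    refine integral_congr_ae (Eventually.of_forall fun ξ => ?_)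
    have h7 : (innerSL ℝ ξ) (bb i) = ξ i := by
      simp [bb, EuclideanSpace.inner_single_right]
    simp only [VectorFourier.fourierSMulRight_apply, h7, smul_eq_mul, Complex.real_smul]
    ring

end SNS.AVG
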