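import Pool.Agent.SNS.Fin

/-!
# AVG-KER: bounds for the Fourier transform of a kernel
-/

open MeasureTheory Filter Topology Set
open scoped FourierTransform SchwartzMap ContDiff ComplexConjugate RealInnerProductSpace

namespace SNS.AVG

theorem ker_norm {κ : E → ℝ} (ξ : E) :
    ‖𝓕 (fun y : E => (κ y : ℂ)) ξ‖ ≤ ∫ y : E, ‖κ y‖ := by
  rw [Real.fourier_eq]
  refine (norm_integral_le_integral_norm _).trans (le_of_eq ?_)
  refine integral_congr_ae (Filter.Eventually.of_forall fun y => ?_)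
  simp only [Circle.norm_smul]
  simp

namespace KER

theorem norm_one_sub (t : ℝ) : ‖(1 : ℂ) - (Real.fourierChar (-t) : ℂ)‖ ≤ 2 * Real.pi * |t| := by
  rw [Real.fourierChar_apply, norm_sub_rev]
  have h : ((2 * Real.pi * (-t) : ℝ) : ℂ) * Complex.I =
      Complex.I * ((2 * Real.pi * (-t) : ℝ) : ℂ) := mul_comm _ _
  rw [h]
  refine (Real.norm_exp_I_mul_ofReal_sub_one_le).trans (le_of_eq ?_)
  rw [Real.norm_eq_abs, abs_mul, abs_mul, abs_neg, abs_of_pos Real.pi_pos]
  simp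

end KER

theorem ker_sub {κ : E → ℝ} (hκ : Integrable κ (volume : Measure E))
    (h1 : Integrable (fun y : E => ‖y‖ * ‖κ y‖) (volume : Measure E)) (h : ∫ y : E, κ y = 1)
    (ξ : E) :
    ‖1 - 𝓕 (fun y : E => (κ y : ℂ)) ξ‖ ≤ 2 * Real.pi * ‖ξ‖ * ∫ y : E, ‖y‖ * ‖κ y‖ := by
  have hκc : Integrable (fun y : E => (κ y : ℂ)) (volume : Measure E) := hκ.ofReal
  have hone : (1 : ℂ) = ∫ y : E, (κ y : ℂ) := by
    rw [integral_complex_ofReal, h]
    simp
  have hF : Integrable (fun y : E => Real.fourierChar (-(inner ℝ y ξ)) • (κ y : ℂ))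
      (volume : Measure E) := by
    have := (Real.fourierIntegral_convergent_iff (μ := (volume : Measure E))
      (f := fun y : E => (κ y : ℂ)) ξ).mpr hκc
    exact this
  rw [Real.fourier_eq, hone, ← integral_sub hκc hF]
  refine (norm_integral_le_integral_norm _).trans ?_
  rw [← integral_const_mul]
  refine integral_mono_of_nonneg (Filter.Eventually.of_forall fun y => norm_nonneg _)
    (h1.const_mul _) (Filter.Eventually.of_forall fun y => ?_)
  simp only
  have e1 : (κ y : ℂ) - Real.fourierChar (-(inner ℝ y ξ)) • (κ y : ℂ) =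
      (1 - (Real.fourierChar (-(inner ℝ y ξ)) : ℂ)) * (κ y : ℂ) := by
    rw [Circle.smul_def, smul_eq_mul]
    ring
  rw [e1, norm_mul, Complex.norm_real]
  calc ‖(1 : ℂ) - (Real.fourierChar (-(inner ℝ y ξ)) : ℂ)‖ * ‖κ y‖
      ≤ (2 * Real.pi * |inner ℝ y ξ|) * ‖κ y‖ :=
        mul_le_mul_of_nonneg_right (KER.norm_one_sub _) (norm_nonneg _)
    _ ≤ (2 * Real.pi * (‖y‖ * ‖ξ‖)) * ‖κ y‖ := by
        refine mul_le_mul_of_nonneg_right ?_ (norm_nonneg _)
        refine mul_le_mul_of_nonneg_left (abs_real_inner_le_norm y ξ) ?_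
        positivity
    _ = 2 * Real.pi * ‖ξ‖ * (‖y‖ * ‖κ y‖) := by ring

end SNS.AVG
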