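import Pool.Agent.SNS.Fin

/-! AVG-PAR: Parseval's identity for pairs `IsFT`. -/

open MeasureTheory Filter Topology Set
open scoped FourierTransform SchwartzMap ContDiff ComplexConjugate RealInnerProductSpace

namespace SNS.AVG

namespace PAR

/-- two Fourier transforms of the same function agree -/
theorem unique {g h k : E → ℂ} (H : IsFT g h) (K : IsFT g k) : h =ᵐ[volume] k := by
  refine ae_eq_of_integral_contDiff_smul_eq (H.memh.locallyIntegrable (by norm_num))
    (K.memh.locallyIntegrable (by norm_num)) fun θ hθ hc => ?_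
  have e : ∀ f : E → ℂ, ∫ x : E, θ x • f x = ∫ x : E, f x * FTL.ts _ hθ hc x := by
    intro f
    refine integral_congr_ae (Eventually.of_forall fun y => ?_)
    simp only [FTL.ts_apply, Complex.real_smul]
    ring
  rw [e, e, H.test, K.test]

/-- the transform is the `L²` Fourier transform of Mathlib -/
theorem ae_fourier {g h : E → ℂ} (H : IsFT g h) :
    h =ᵐ[volume] (𝓕 (H.memg.toLp g) : Lp ℂ 2 (volume : Measure E)) :=
  unique H ((isFT_Lp (H.memg.toLp g)).congr H.memg.coeFn_toLp (ae_eq_refl _))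

end PAR

theorem parseval {g h g' h' : E → ℂ} (H : IsFT g h) (H' : IsFT g' h') :
    ∫ x : E, g x * conj (g' x) = ∫ ξ : E, h ξ * conj (h' ξ) := by
  have e := Lp.inner_fourier_eq (H'.memg.toLp g') (H.memg.toLp g)
  rw [L2.inner_def, L2.inner_def] at e
  have e1 : ∫ x : E, g x * conj (g' x) =
      ∫ x : E, inner ℂ ((H'.memg.toLp g' : Lp ℂ 2 (volume : Measure E)) x)
        ((H.memg.toLp g : Lp ℂ 2 (volume : Measure E)) x) := by
    refine integral_congr_ae ?_
    filter_upwards [H.memg.coeFn_toLp, H'.memg.coeFn_toLp] with x h1 h2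
    rw [h1, h2]
    simp [RCLike.inner_apply]
  have e2 : ∫ ξ : E, h ξ * conj (h' ξ) =
      ∫ x : E, inner ℂ ((𝓕 (H'.memg.toLp g') : Lp ℂ 2 (volume : Measure E)) x)
        ((𝓕 (H.memg.toLp g) : Lp ℂ 2 (volume : Measure E)) x) := by
    refine integral_congr_ae ?_
    filter_upwards [PAR.ae_fourier H, PAR.ae_fourier H'] with x h1 h2
    rw [← h1, ← h2]
    simp [RCLike.inner_apply]
  rw [e1, e2]
  exact e.symm

end SNS.AVG
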