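import Pool.Agent.SNS.Fin

/-! AVG-TRL: the trilinear term vanishes for a divergence free field (integration by parts). -/

open MeasureTheory Filter Topology Set
open scoped FourierTransform SchwartzMap ContDiff ComplexConjugate RealInnerProductSpace

namespace SNS.AVG

namespace TRL

theorem pd_sq {g : E → ℝ} (hg : Differentiable ℝ g) (i : Fin 3) (x : E) :
    fderiv ℝ (fun y => g y * g y) x (bb i) = 2 * (g x * pd i g x) := by
  have h : HasFDerivAt (fun y => g y * g y) (g x • fderiv ℝ g x + g x • fderiv ℝ g x) x :=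
    (hg x).hasFDerivAt.mul (hg x).hasFDerivAt
  rw [h.fderiv]
  show g x * fderiv ℝ g x (bb i) + g x * fderiv ℝ g x (bb i) = 2 * (g x * fderiv ℝ g x (bb i))
  ring

end TRL

theorem trilinear {u : Fin 3 → E → ℝ} {g : E → ℝ} (hu : ∀ i, ContDiff ℝ 1 (u i))
    (hb : ∃ M : ℝ, ∀ i x, |u i x| ≤ M) (hdiv : ∀ x, ∑ i, pd i (u i) x = 0)
    (hu2 : ∀ i, MemLp (pd i (u i)) 2 (volume : Measure E)) (hg : ContDiff ℝ 1 g)
    (hgb : ∃ M : ℝ, ∀ x, |g x| ≤ M) (hg2 : MemLp g 2 (volume : Measure E))
    (hg3 : ∀ i, MemLp (pd i g) 2 (volume : Measure E)) :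
    ∫ x : E, (∑ i, u i x * pd i g x) * g x = 0 := by
  obtain ⟨M, hM⟩ := hb
  obtain ⟨N, hN⟩ := hgb
  have hgd : Differentiable ℝ g := hg.differentiable (by norm_num)
  have hud : ∀ i, Differentiable ℝ (u i) := fun i => (hu i).differentiable (by norm_num)
  have int1 : ∀ i, Integrable (fun x => u i x * (g x * pd i g x)) (volume : Measure E) := by
    intro i
    exact (hg2.integrable_mul (hg3 i)).bdd_mul (hu i).continuous.aestronglyMeasurable
      (Eventually.of_forall fun x => by rw [Real.norm_eq_abs]; exact hM i x)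
  have int2 : ∀ i, Integrable (fun x => pd i (u i) x * (g x * g x)) (volume : Measure E) := by
    intro i
    have h := ((hu2 i).integrable_mul hg2).mul_bdd hg.continuous.aestronglyMeasurable
      (c := N) (Eventually.of_forall fun x => by rw [Real.norm_eq_abs]; exact hN x)
    refine h.congr (Eventually.of_forall fun x => ?_)
    simp only [Pi.mul_apply]
    ring
  have int3 : ∀ i, Integrable (fun x => u i x * (g x * g x)) (volume : Measure E) := by
    intro i
    exact (hg2.integrable_mul hg2).bdd_mul (hu i).continuous.aestronglyMeasurable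
      (Eventually.of_forall fun x => by rw [Real.norm_eq_abs]; exact hM i x)
  have key : ∀ i, 2 * ∫ x : E, u i x * (g x * pd i g x) =
      - ∫ x : E, pd i (u i) x * (g x * g x) := by
    intro i
    have h := integral_mul_fderiv_eq_neg_fderiv_mul_of_integrable (μ := (volume : Measure E))
      (f := u i) (g := fun y => g y * g y) (v := bb i) (int2 i) ?_ (int3 i)
      (fun x _ => hud i x) (fun x _ => (hgd x).mul (hgd x))
    · simp only [TRL.pd_sq hgd] at h
      rw [← integral_const_mul]
      refine Eq.trans ?_ h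
      refine integral_congr_ae (Eventually.of_forall fun x => ?_)
      ring
    · simp only [TRL.pd_sq hgd]
      refine ((int1 i).const_mul 2).congr (Eventually.of_forall fun x => ?_)
      ring
  have e1 : ∫ x : E, (∑ i, u i x * pd i g x) * g x =
      ∑ i, ∫ x : E, u i x * (g x * pd i g x) := by
    rw [← integral_finsetSum _ (fun i _ => int1 i)]
    refine integral_congr_ae (Eventually.of_forall fun x => ?_)
    simp only [Finset.sum_mul]
    refine Finset.sum_congr rfl fun i _ => ?_
    ring
  have e2 : 2 * ∑ i, ∫ x : E, u i x * (g x * pd i g x) = 0 := by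
    rw [Finset.mul_sum, Finset.sum_congr rfl fun i _ => key i, Finset.sum_neg_distrib,
      ← integral_finsetSum _ (fun i _ => int2 i)]
    have e3 : (fun x : E => ∑ i, pd i (u i) x * (g x * g x)) = fun _ => 0 := by
      funext x
      rw [← Finset.sum_mul, hdiv x, zero_mul]
    rw [e3]
    simp
  rw [e1]
  linarith

end SNS.AVG
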