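import Pool.Agent.AVG.CNV
import Pool.Agent.AVG.BMP
import Pool.Agent.AVG.DER
import Pool.Agent.AVG.PAR
import Pool.Agent.AVG.CONS
import Pool.Agent.AVG.TRL
import Pool.Agent.AVG.KER

/-! AVG: the building blocks. -/
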