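import Pool.Agent.SNS.Fin

/-! AVG-CNV: Fubini. -/

open MeasureTheory Filter Topology Set
open scoped FourierTransform SchwartzMap ContDiff ComplexConjugate RealInnerProductSpace

namespace SNS.AVG

namespace CNV

/-- the kernel of the double integral -/
noncomputable def ker (g W : E → ℂ) (R : ℝ) (x : E) (p : E × E) : ℂ :=
  Complex.exp (((2 * Real.pi * (inner ℝ p.1 (x - R • p.2) : ℝ) : ℝ) : ℂ) * Complex.I) *
    (W p.1 * g p.2)

theorem integrable_ker {g W : E → ℂ} (hg : Integrable g (volume : Measure E))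
    (hW : Integrable W (volume : Measure E)) (R : ℝ) (x : E) :
    Integrable (ker g W R x) ((volume : Measure E).prod (volume : Measure E)) := by
  refine (hW.mul_prod hg).bdd_mul (c := 1) ?_ ?_
  · refine Continuous.aestronglyMeasurable ?_
    fun_prop
  · refine Eventually.of_forall fun p => ?_
    rw [Complex.norm_exp_ofReal_mul_I]

end CNV

theorem conv {g : E → ℂ} (hg : Integrable g (volume : Measure E)) {W : E → ℂ}
    (hW : Integrable W (volume : Measure E)) (R : ℝ) (x : E) :
    𝓕⁻ (fun ξ : E => 𝓕 g (R • ξ) * W ξ) x = ∫ y : E, g y * 𝓕⁻ W (x - R • y) := by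
  rw [Real.fourierInv_eq']
  have e1 : ∀ ξ : E, Complex.exp (((2 * Real.pi * (inner ℝ ξ x : ℝ) : ℝ) : ℂ) * Complex.I) •
      (𝓕 g (R • ξ) * W ξ) = ∫ y : E, CNV.ker g W R x (ξ, y) := by
    intro ξ
    rw [Real.fourier_eq', smul_eq_mul, ← integral_mul_const, ← integral_const_mul]
    refine integral_congr_ae (Eventually.of_forall fun y => ?_)
    simp only [CNV.ker, smul_eq_mul]
    have e2 : ((2 * Real.pi * (inner ℝ ξ (x - R • y) : ℝ) : ℝ) : ℂ) * Complex.I =
        ((2 * Real.pi * (inner ℝ ξ x : ℝ) : ℝ) : ℂ) * Complex.I +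
        ((-2 * Real.pi * (inner ℝ y (R • ξ) : ℝ) : ℝ) : ℂ) * Complex.I := by
      rw [inner_sub_right, real_inner_smul_right, real_inner_smul_right, real_inner_comm y ξ]
      push_cast
      ring
    rw [e2, Complex.exp_add]
    ring
  have e3 : ∀ y : E, g y * 𝓕⁻ W (x - R • y) = ∫ ξ : E, CNV.ker g W R x (ξ, y) := by
    intro y
    rw [Real.fourierInv_eq', ← integral_const_mul]
    refine integral_congr_ae (Eventually.of_forall fun ξ => ?_)
    simp only [CNV.ker, smul_eq_mul]
    ring
  calc _ = ∫ ξ : E, ∫ y : E, CNV.ker g W R x (ξ, y) :=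
        integral_congr_ae (Eventually.of_forall e1)
    _ = ∫ y : E, ∫ ξ : E, CNV.ker g W R x (ξ, y) :=
        integral_integral_swap (CNV.integrable_ker hg hW R x)
    _ = _ := integral_congr_ae (Eventually.of_forall fun y => (e3 y).symm)

end SNS.AVG
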