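import Pool.Agent.AVG.Ineq

/-! AVG: the Liouville theorem. -/

open MeasureTheory Filter Topology Set
open scoped FourierTransform SchwartzMap ContDiff ComplexConjugate RealInnerProductSpace

namespace SNS.AVG

section

variable {ν : ℝ} {v : E → E} {V : E → C3} {F : Fin 3 → E → ℂ} {κ γ : E → ℝ}
  {γ' : Fin 3 → E → ℝ} {R : ℝ}

theorem sum_h (hD : Data ν v V F) (hκ : Ker κ) (hγ : Ker γ) (hR : 0 < R) :
    (∑ j, ∫ x : E, hj κ γ R v j x ^ 2) / R ^ 2 =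
      ∫ ξ : E, ‖1 - mu κ γ R ξ‖ ^ 2 * ‖V ξ‖ ^ 2 / R ^ 2 := by
  rw [integral_div]
  congr 1
  have h1 : ∀ j, ∫ x : E, hj κ γ R v j x ^ 2 = ∫ ξ : E, ‖(1 - mu κ γ R ξ) * V ξ j‖ ^ 2 :=
    fun j => plan (h_ft hD hκ hγ hR j)
  simp_rw [h1]
  rw [← integral_finsetSum]
  · refine integral_congr_ae (Eventually.of_forall fun ξ => ?_)
    simp only [norm_mul, mul_pow]
    rw [← Finset.mul_sum, EuclideanSpace.norm_sq_eq (V ξ)]
  · intro j _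
    exact (h_ft hD hκ hγ hR j).memh.integrable_norm_pow (by norm_num)

theorem sum_du (hD : Data ν v V F) (hκ : Ker κ) (hγ : Ker γ) (hd : Der γ γ') (hR : 0 < R) :
    ∑ j, ∑ i, ∫ x : E, duj κ γ' R v i j x ^ 2 ≤
      4 * Real.pi ^ 2 * (nm γ * nm κ) ^ 2 * ∫ ξ : E, FIN.en V ξ := by
  have h1 : ∀ j i, ∫ x : E, duj κ γ' R v i j x ^ 2 =
      ∫ ξ : E, ‖2 * Real.pi * Complex.I * (ξ i : ℂ) * (mu κ γ R ξ * V ξ j)‖ ^ 2 :=
    fun j i => plan (du_ft hD hκ hγ hd hR i j)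
  have hI : ∀ j i, Integrable (fun ξ : E =>
      ‖2 * Real.pi * Complex.I * (ξ i : ℂ) * (mu κ γ R ξ * V ξ j)‖ ^ 2) (volume : Measure E) :=
    fun j i => (du_ft hD hκ hγ hd hR i j).memh.integrable_norm_pow (by norm_num)
  simp_rw [h1]
  have h2 : ∑ j, ∑ i, ∫ ξ : E, ‖2 * Real.pi * Complex.I * (ξ i : ℂ) *
      (mu κ γ R ξ * V ξ j)‖ ^ 2 = ∫ ξ : E, ∑ j : Fin 3, ∑ i : Fin 3,
        ‖2 * Real.pi * Complex.I * (ξ i : ℂ) * (mu κ γ R ξ * V ξ j)‖ ^ 2 := by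
    rw [integral_finsetSum _ fun j _ => integrable_finsetSum _ fun i _ => hI j i]
    refine Finset.sum_congr rfl fun j _ => ?_
    rw [integral_finsetSum _ fun i _ => hI j i]
  rw [h2, ← integral_const_mul]
  refine integral_mono (integrable_finsetSum _ fun j _ => integrable_finsetSum _ fun i _ => hI j i)
    (hD.en.const_mul _) fun ξ => ?_
  have e1 : ∀ j i : Fin 3, ‖2 * Real.pi * Complex.I * (ξ i : ℂ) * (mu κ γ R ξ * V ξ j)‖ ^ 2 =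
      4 * Real.pi ^ 2 * ‖mu κ γ R ξ‖ ^ 2 * (‖ξ i‖ ^ 2 * ‖V ξ j‖ ^ 2) := by
    intro j i
    simp only [norm_mul, Complex.norm_I, Complex.norm_real, RCLike.norm_ofNat, mul_one,
      Real.norm_of_nonneg Real.pi_pos.le]
    ring
  simp_rw [e1]
  have e2 : ∑ j : Fin 3, ∑ i : Fin 3, 4 * Real.pi ^ 2 * ‖mu κ γ R ξ‖ ^ 2 *
      (‖ξ i‖ ^ 2 * ‖V ξ j‖ ^ 2) = 4 * Real.pi ^ 2 * ‖mu κ γ R ξ‖ ^ 2 * FIN.en V ξ := by
    unfold FIN.en
    rw [EuclideanSpace.norm_sq_eq ξ, EuclideanSpace.norm_sq_eq (V ξ)]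
    simp only [Fin.sum_univ_three]
    ring
  rw [e2]
  have h3 := mu_norm κ γ R ξ
  have h4 := FIN.en_nonneg V ξ
  gcongr

/-- the inequality at one scale -/
theorem main_ineq {p : E → ℝ} (hD : Data ν v V F) (hv : ContDiff ℝ 2 v) (hNS : SteadyNS ν v p)
    (hvb : ∃ M : ℝ, ∀ x, ‖v x‖ ≤ M) (hκ : Ker κ) (hγ : Ker γ) (hd : Der γ γ') (hR : 0 < R)
    {C : ℝ} (hA : ∀ x, ‖∫ y : E, κ y • v (x - R • y)‖ ≤ C / R) {δ : ℝ} (hδ : 0 < δ) :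
    4 * Real.pi ^ 2 * ν * ∫ ξ : E, (1 - mu κ γ R ξ).re * FIN.en V ξ ≤
      nm γ * C / 2 * (δ * (4 * Real.pi ^ 2 * (nm γ * nm κ) ^ 2 * ∫ ξ : E, FIN.en V ξ)) +
      (nm γ * C / 2 * (3 / δ) + gs γ' * C * 3) *
        ∫ ξ : E, ‖1 - mu κ γ R ξ‖ ^ 2 * ‖V ξ‖ ^ 2 / R ^ 2 := by
  have hw := w_bd (R := R) hv.continuous hvb hκ hA
  have hC : 0 ≤ C := by
    have h1 : 0 ≤ C / R := (abs_nonneg _).trans (hw 0 0)
    have h2 := mul_nonneg h1 hR.le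
    rwa [div_mul_cancel₀ _ hR.ne'] at h2
  have hn := nm_nonneg γ
  have hid := identity hD hκ hγ hR
  have h1 : 4 * Real.pi ^ 2 * ν * ∫ ξ : E, (1 - mu κ γ R ξ).re * FIN.en V ξ =
      -∑ j, ∫ x : E, (∑ i, v x i * duj κ γ' R v i j x) * hj κ γ R v j x := by
    have h2 : ∑ j, ∫ x : E, (∑ i, v x i * pd i (fun y => v y j) x) * hj κ γ R v j x =
        ∑ j, ∫ x : E, (∑ i, v x i * duj κ γ' R v i j x) * hj κ γ R v j x :=
      Finset.sum_congr rfl fun j _ => tri_eq hD hv hNS hvb hκ hγ hd hR hA j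
    rw [← h2, hid]
    ring
  rw [h1]
  have h3 : -∑ j, ∫ x : E, (∑ i, v x i * duj κ γ' R v i j x) * hj κ γ R v j x ≤
      ∑ j, |∫ x : E, (∑ i, v x i * duj κ γ' R v i j x) * hj κ γ R v j x| := by
    rw [← Finset.sum_neg_distrib]
    exact Finset.sum_le_sum fun j _ => neg_le_abs _
  refine h3.trans ((Finset.sum_le_sum fun j _ => tri_le hD hv hvb hκ hγ hd hR hA hδ j).trans ?_)
  set a1 := nm γ * C / 2 with ha1
  set a2 := gs γ' * C / 2 with ha2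
  have ha10 : 0 ≤ a1 := by positivity
  rw [← sum_h hD hκ hγ hR]
  have hS := sum_du hD hκ hγ hd hR (v := v) (V := V)
  set D := ∫ ξ : E, FIN.en V ξ with hDdef
  set H : Fin 3 → ℝ := fun j => ∫ x : E, hj κ γ R v j x ^ 2 with hH
  set P : Fin 3 → Fin 3 → ℝ := fun j i => ∫ x : E, duj κ γ' R v i j x ^ 2 with hP
  have e1 : ∑ j, ∑ i, (a1 * (δ * P j i + H j / (δ * R ^ 2)) + a2 * (H i + H j) / R ^ 2) =
      a1 * (δ * ∑ j, ∑ i, P j i) + (a1 * (3 / δ) + 2 * a2 * 3) * ((∑ j, H j) / R ^ 2) := by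
    simp only [Fin.sum_univ_three]
    field_simp
    ring
  have e2 : ∑ j, ∑ i, (a1 * (δ * (∫ x : E, duj κ γ' R v i j x ^ 2) +
      (∫ x : E, hj κ γ R v j x ^ 2) / (δ * R ^ 2)) +
      a2 * ((∫ x : E, hj κ γ R v i x ^ 2) + ∫ x : E, hj κ γ R v j x ^ 2) / R ^ 2) =
      ∑ j, ∑ i, (a1 * (δ * P j i + H j / (δ * R ^ 2)) + a2 * (H i + H j) / R ^ 2) := rfl
  rw [e2, e1]
  have e3 : gs γ' * C * 3 = 2 * a2 * 3 := by rw [ha2]; ring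
  rw [e3]
  gcongr

/-- averages bounded by `C / R` along one sequence of scales -/
theorem energy_zero {p : E → ℝ} (hν : 0 < ν) (hD : Data ν v V F) (hv : ContDiff ℝ 2 v)
    (hNS : SteadyNS ν v p) (hvb : ∃ M : ℝ, ∀ x, ‖v x‖ ≤ M) (hκ : Ker κ) {C : ℝ}
    (hA : ∃ᶠ R : ℝ in atTop, ∀ x, ‖∫ y : E, κ y • v (x - R • y)‖ ≤ C / R) :
    ∫ ξ : E, FIN.en V ξ = 0 := by
  obtain ⟨γ, γ', b1, b2, b3, b4, b5⟩ := bump
  have hγ : Ker γ := ⟨b1, b3, b2⟩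
  have hd : Der γ γ' := ⟨b4, b5⟩
  set D := ∫ ξ : E, FIN.en V ξ with hDdef
  have hD0 : 0 ≤ D := integral_nonneg fun ξ => FIN.en_nonneg V ξ
  have hl1 := lim_one hκ hγ hd hD.en
  have hl2 := lim_two hκ hγ hd hD.good.meas hD.en
  by_contra hne
  have hDpos : 0 < D := lt_of_le_of_ne hD0 (Ne.symm hne)
  have hn := nm_nonneg γ
  set K := nm γ * |C| / 2 * (4 * Real.pi ^ 2 * (nm γ * nm κ) ^ 2) with hK
  have hK0 : 0 ≤ K := by positivity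
  set δ := Real.pi ^ 2 * ν / (K + 1) with hδ
  have hδ0 : 0 < δ := by positivity
  set B := nm γ * |C| / 2 * (3 / δ) + gs γ' * |C| * 3 with hB
  have hB0 : 0 ≤ B := by
    have := gs_nonneg γ'
    positivity
  have t1 : ∀ᶠ R : ℝ in atTop, D / 2 < ∫ ξ : E, (1 - mu κ γ R ξ).re * FIN.en V ξ :=
    hl1.eventually (lt_mem_nhds (by linarith))
  have t2 : Tendsto (fun R : ℝ => B * ∫ ξ : E, ‖1 - mu κ γ R ξ‖ ^ 2 * ‖V ξ‖ ^ 2 / R ^ 2) atTop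
      (𝓝 0) := by
    have := hl2.const_mul B
    rwa [mul_zero] at this
  have t3 : ∀ᶠ R : ℝ in atTop,
      B * ∫ ξ : E, ‖1 - mu κ γ R ξ‖ ^ 2 * ‖V ξ‖ ^ 2 / R ^ 2 < Real.pi ^ 2 * ν * D / 2 :=
    t2.eventually (gt_mem_nhds (by positivity))
  obtain ⟨R, hAR, h1, h2, hR⟩ :=
    (hA.and_eventually (t1.and (t3.and (eventually_gt_atTop (0 : ℝ))))).exists
  have hAR' : ∀ x, ‖∫ y : E, κ y • v (x - R • y)‖ ≤ |C| / R := fun x =>
    (hAR x).trans (by gcongr; exact le_abs_self C)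
  have h3 := main_ineq hD hv hNS hvb hκ hγ hd hR hAR' hδ0
  have h4 : nm γ * |C| / 2 * (δ * (4 * Real.pi ^ 2 * (nm γ * nm κ) ^ 2 * D)) = K * δ * D := by
    rw [hK]; ring
  have h5 : K * δ ≤ Real.pi ^ 2 * ν := by
    rw [hδ, mul_div_assoc', div_le_iff₀ (by positivity)]
    have : 0 ≤ Real.pi ^ 2 * ν := by positivity
    nlinarith
  rw [h4, ← hB] at h3
  have h6 : 4 * Real.pi ^ 2 * ν * (D / 2) <
      4 * Real.pi ^ 2 * ν * ∫ ξ : E, (1 - mu κ γ R ξ).re * FIN.en V ξ := by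
    gcongr
  have h7 : K * δ * D ≤ Real.pi ^ 2 * ν * D := by gcongr
  have h8 : 0 < Real.pi ^ 2 * ν * D := by positivity
  linarith

/-- the Liouville theorem -/
theorem liouville {p : E → ℝ} (hν : 0 < ν) (hv : ContDiff ℝ 2 v) (hp : Differentiable ℝ p)
    (hNS : SteadyNS ν v p) (h0 : Tendsto v (cocompact E) (𝓝 0))
    (h2 : ∀ i j, MemLp (G v i j) 2 (volume : Measure E)) (hκ : Ker κ) {C : ℝ}
    (hA : ∃ᶠ R : ℝ in atTop, ∀ x, ‖∫ y : E, κ y • v (x - R • y)‖ ≤ C / R) :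
    ∀ x, v x = 0 := by
  obtain ⟨V, F, hD, hd⟩ := exists_data hν hv hp hNS h0 h2
  obtain ⟨M, -, hM⟩ := MAIN.bdd hv h0
  have hz := energy_zero hν hD hv hNS ⟨M, hM⟩ hκ hA
  refine MAIN.zero_of_dens hv h0 h2 ?_
  rw [integral_congr_ae hd, integral_const_mul, hz, mul_zero]

end

end SNS.AVG
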