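import Pool.Agent.AVG.Main

/-! AVG: the energy inequality at scale `R`. -/

open MeasureTheory Filter Topology Set
open scoped FourierTransform SchwartzMap ContDiff ComplexConjugate RealInnerProductSpace

namespace SNS.AVG

section

variable {ν : ℝ} {v : E → E} {V : E → C3} {F : Fin 3 → E → ℂ} {κ γ : E → ℝ}
  {γ' : Fin 3 → E → ℝ} {R : ℝ}

/-- for a real function with an `L²` transform: `∫ |g|² = ∫ |h|²` and `g ∈ L²` -/
theorem plan {g : E → ℝ} {h : E → ℂ} (H : IsFT (fun x => (g x : ℂ)) h) :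
    ∫ x : E, g x ^ 2 = ∫ ξ : E, ‖h ξ‖ ^ 2 := by
  have h1 := parseval H H
  have e1 : ∀ x : E, (g x : ℂ) * conj (g x : ℂ) = ((g x ^ 2 : ℝ) : ℂ) := by
    intro x
    rw [Complex.conj_ofReal]
    push_cast
    ring
  have e2 : ∀ ξ : E, h ξ * conj (h ξ) = ((‖h ξ‖ ^ 2 : ℝ) : ℂ) := by
    intro ξ
    rw [Complex.mul_conj, Complex.normSq_eq_norm_sq]
  simp_rw [e1, e2] at h1
  rw [integral_complex_ofReal, integral_complex_ofReal] at h1
  exact_mod_cast h1

theorem mem_real {g : E → ℝ} {h : E → ℂ} (H : IsFT (fun x => (g x : ℂ)) h) :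
    MemLp g 2 (volume : Measure E) := by
  have h1 := H.memg.re
  simpa using h1

/-- energy identity at scale `R` -/
theorem identity (hD : Data ν v V F) (hκ : Ker κ) (hγ : Ker γ) (hR : 0 < R) :
    ∑ j, ∫ x : E, (∑ i, v x i * pd i (fun y => v y j) x) * hj κ γ R v j x =
      -(4 * Real.pi ^ 2 * ν * ∫ ξ : E, (1 - mu κ γ R ξ).re * FIN.en V ξ) := by
  have h1 : ∀ j, ∫ x : E, MAIN.Nl v j x * conj (hj κ γ R v j x : ℂ) =
      ∫ ξ : E, F j ξ * conj ((1 - mu κ γ R ξ) * V ξ j) := fun j =>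
    parseval (hD.nl j) (h_ft hD hκ hγ hR j)
  have h2 : ∀ j, ∫ x : E, MAIN.Nl v j x * conj (hj κ γ R v j x : ℂ) =
      ((∫ x : E, (∑ i, v x i * pd i (fun y => v y j) x) * hj κ γ R v j x : ℝ) : ℂ) := by
    intro j
    rw [← integral_complex_ofReal]
    refine integral_congr_ae (Eventually.of_forall fun x => ?_)
    simp only [Complex.conj_ofReal]
    unfold MAIN.Nl
    push_cast
    ring
  have h3 : ∑ j, ∫ ξ : E, F j ξ * conj ((1 - mu κ γ R ξ) * V ξ j) =
      ∫ ξ : E, ∑ j, F j ξ * conj ((1 - mu κ γ R ξ) * V ξ j) := by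
    rw [integral_finsetSum]
    intro j _
    have hm : MemLp (fun ξ => conj ((1 - mu κ γ R ξ) * V ξ j)) 2 (volume : Measure E) :=
      (h_ft hD hκ hγ hR j).memh.star
    exact (hD.nl j).memh.integrable_mul hm
  have h4 : ∫ ξ : E, ∑ j, F j ξ * conj ((1 - mu κ γ R ξ) * V ξ j) =
      ∫ ξ : E, conj (1 - mu κ γ R ξ) * ((-(4 * Real.pi ^ 2 * ν * FIN.en V ξ) : ℝ) : ℂ) := by
    refine integral_congr_ae ?_
    filter_upwards [hD.mom] with ξ hξ
    have e1 : ∀ j, F j ξ * conj ((1 - mu κ γ R ξ) * V ξ j) =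
        conj (1 - mu κ γ R ξ) * (F j ξ * conj (V ξ j)) := by
      intro j
      rw [map_mul]
      ring
    simp_rw [e1]
    rw [← Finset.mul_sum, hξ]
    unfold FIN.en
    congr 2
    ring
  have h5 : ((∑ j, ∫ x : E, (∑ i, v x i * pd i (fun y => v y j) x) * hj κ γ R v j x : ℝ) : ℂ) =
      ∫ ξ : E, conj (1 - mu κ γ R ξ) * ((-(4 * Real.pi ^ 2 * ν * FIN.en V ξ) : ℝ) : ℂ) := by
    rw [← h4, ← h3]
    push_cast
    refine Finset.sum_congr rfl fun j _ => ?_
    rw [← h1 j, h2 j]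
  have hint : Integrable (fun ξ : E => conj (1 - mu κ γ R ξ) *
      ((-(4 * Real.pi ^ 2 * ν * FIN.en V ξ) : ℝ) : ℂ)) (volume : Measure E) := by
    have h6 : Integrable (fun ξ : E => ((-(4 * Real.pi ^ 2 * ν * FIN.en V ξ) : ℝ) : ℂ))
        (volume : Measure E) := by
      have h9 : Integrable (fun ξ : E => ((-(4 * Real.pi ^ 2 * ν) * FIN.en V ξ : ℝ) : ℂ))
          (volume : Measure E) := (hD.en.const_mul (-(4 * Real.pi ^ 2 * ν))).ofReal
      have e : (fun ξ : E => ((-(4 * Real.pi ^ 2 * ν * FIN.en V ξ) : ℝ) : ℂ)) =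
          fun ξ : E => ((-(4 * Real.pi ^ 2 * ν) * FIN.en V ξ : ℝ) : ℂ) := by
        funext ξ
        congr 1
        ring
      rw [e]
      exact h9
    refine h6.bdd_mul (c := 1 + nm γ * nm κ) ?_ (Eventually.of_forall fun ξ => ?_)
    · exact (Complex.continuous_conj.comp
        (continuous_const.sub (mu_cont hκ hγ R))).aestronglyMeasurable
    · rw [RCLike.norm_conj]
      exact one_sub_mu κ γ R ξ
  have h7 := congrArg Complex.re h5
  rw [Complex.ofReal_re] at h7
  rw [h7]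
  have h8 : (∫ ξ : E, conj (1 - mu κ γ R ξ) *
      ((-(4 * Real.pi ^ 2 * ν * FIN.en V ξ) : ℝ) : ℂ)).re =
      ∫ ξ : E, (conj (1 - mu κ γ R ξ) *
        ((-(4 * Real.pi ^ 2 * ν * FIN.en V ξ) : ℝ) : ℂ)).re := by
    have := integral_re hint
    exact this.symm
  rw [h8, ← integral_const_mul, ← integral_neg]
  refine integral_congr_ae (Eventually.of_forall fun ξ => ?_)
  simp only [Complex.re_mul_ofReal, Complex.conj_re]
  ring

/-- bound of the average by the supremum -/
theorem w_bd (hvc : Continuous v) (hvb : ∃ M : ℝ, ∀ x, ‖v x‖ ≤ M) (hκ : Ker κ) {A : ℝ}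
    (hA : ∀ x, ‖∫ y : E, κ y • v (x - R • y)‖ ≤ A) (j : Fin 3) (x : E) :
    |wj κ R v j x| ≤ A := by
  obtain ⟨M, hM⟩ := hvb
  have hint : Integrable (fun y : E => κ y • v (x - R • y)) (volume : Measure E) := by
    refine (hκ.int.norm.mul_const M).mono' ?_ (Eventually.of_forall fun y => ?_)
    · exact hκ.int.1.smul
        (hvc.comp (continuous_const.sub (continuous_id.const_smul R))).aestronglyMeasurable
    · rw [norm_smul]
      have := hM (x - R • y)
      gcongr
  have h1 : (∫ y : E, κ y • v (x - R • y)) j = wj κ R v j x := by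
    have h2 := (EuclideanSpace.proj j : E →L[ℝ] ℝ).integral_comp_comm hint
    exact h2.symm
  rw [← h1, ← Real.norm_eq_abs]
  exact (PiLp.norm_apply_le _ j).trans (hA x)

theorem av_bd {g w : E → ℝ} {A : ℝ} (hg : Integrable g (volume : Measure E))
    (hA : ∀ x, |w x| ≤ A) (R : ℝ) (x : E) : |∫ z : E, g z * w (x - R • z)| ≤ nm g * A := by
  rw [← Real.norm_eq_abs]
  unfold nm
  rw [← integral_mul_const]
  refine norm_integral_le_of_norm_le (hg.norm.mul_const A) (Eventually.of_forall fun z => ?_)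
  rw [norm_mul, Real.norm_eq_abs (w _)]
  have := hA (x - R • z)
  gcongr

theorem u_bd {A : ℝ} (hγ : Ker γ) (hw : ∀ j x, |wj κ R v j x| ≤ A) (j : Fin 3) (x : E) :
    |uj κ γ R v j x| ≤ nm γ * A := av_bd hγ.int (hw j) R x

theorem du_bd {A : ℝ} (hd : Der γ γ') (hR : 0 < R) (hw : ∀ j x, |wj κ R v j x| ≤ A)
    (i j : Fin 3) (x : E) : |duj κ γ' R v i j x| ≤ R⁻¹ * (gs γ' * A) := by
  have hA0 : 0 ≤ A := (abs_nonneg _).trans (hw 0 0)
  unfold duj
  rw [abs_mul, abs_of_pos (inv_pos.2 hR)]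
  have h1 := av_bd (hd.int i) (hw j) R x
  have h2 := nm_le_gs γ' i
  have h3 : 0 < R⁻¹ := inv_pos.2 hR
  gcongr
  exact h1.trans (by gcongr)

/-- the trilinear term without the high-high part -/
theorem tri_eq {p : E → ℝ} (hD : Data ν v V F) (hv : ContDiff ℝ 2 v) (hNS : SteadyNS ν v p)
    (hvb : ∃ M : ℝ, ∀ x, ‖v x‖ ≤ M) (hκ : Ker κ) (hγ : Ker γ) (hd : Der γ γ') (hR : 0 < R)
    {A : ℝ} (hA : ∀ x, ‖∫ y : E, κ y • v (x - R • y)‖ ≤ A) (j : Fin 3) :
    ∫ x : E, (∑ i, v x i * pd i (fun y => v y j) x) * hj κ γ R v j x =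
      ∫ x : E, (∑ i, v x i * duj κ γ' R v i j x) * hj κ γ R v j x := by
  obtain ⟨M, hM⟩ := hvb
  have hw := w_bd (R := R) hv.continuous ⟨M, hM⟩ hκ hA
  have hvj : ∀ j, ContDiff ℝ 1 (fun y => v y j) := fun j =>
    (MAIN.comp_contDiff hv j).of_le (by norm_num)
  have hvM : ∀ i x, |v x i| ≤ M := fun i x => by
    rw [← Real.norm_eq_abs]; exact (PiLp.norm_apply_le (v x) i).trans (hM x)
  obtain ⟨huC, hud⟩ := u_der hD hκ hγ hd hR j
  have hhC : ContDiff ℝ 1 (hj κ γ R v j) := (hvj j).sub huC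
  have hpd : ∀ i x, pd i (hj κ γ R v j) x = pd i (fun y => v y j) x - duj κ γ' R v i j x := by
    intro i x
    rw [← hud i x]
    unfold pd
    have h1 : hj κ γ R v j = (fun y => v y j) - uj κ γ R v j := rfl
    rw [h1, fderiv_sub (((hvj j).differentiable (by norm_num)) x)
      ((huC.differentiable (by norm_num)) x)]
    rfl
  have hm1 : ∀ i j, MemLp (pd i (fun y => v y j)) 2 (volume : Measure E) := fun i j =>
    mem_real (hD.grad i j)
  have hm2 : ∀ i, MemLp (duj κ γ' R v i j) 2 (volume : Measure E) := fun i =>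
    mem_real (du_ft hD hκ hγ hd hR i j)
  have hm3 : MemLp (hj κ γ R v j) 2 (volume : Measure E) := mem_real (h_ft hD hκ hγ hR j)
  have hm4 : ∀ i, MemLp (pd i (hj κ γ R v j)) 2 (volume : Measure E) := by
    intro i
    have h1 : pd i (hj κ γ R v j) = pd i (fun y => v y j) - duj κ γ' R v i j := by
      funext x; exact hpd i x
    rw [h1]
    exact (hm1 i j).sub (hm2 i)
  have htri := trilinear (u := fun i y => v y i) (g := hj κ γ R v j) hvj ⟨M, hvM⟩ hNS.divFree
    (fun i => hm1 i i) hhC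
    ⟨M + nm γ * A, fun x => by
      unfold hj
      have h1 := hvM j x
      have h2 := u_bd hγ hw j x
      exact (abs_sub _ _).trans (add_le_add h1 h2)⟩ hm3 hm4
  have hvm : ∀ i, AEStronglyMeasurable (fun x => v x i) (volume : Measure E) := fun i =>
    (hvj i).continuous.aestronglyMeasurable
  have hi1 : Integrable (fun x => (∑ i, v x i * duj κ γ' R v i j x) * hj κ γ R v j x)
      (volume : Measure E) := by
    have hS : MemLp (fun x => ∑ i, v x i * duj κ γ' R v i j x) 2 (volume : Measure E) := by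
      refine memLp_finsetSum _ fun i _ => ?_
      refine MemLp.of_le_mul (c := M) (hm2 i) ((hvm i).mul (hm2 i).1)
        (Eventually.of_forall fun x => ?_)
      rw [norm_mul, Real.norm_eq_abs (v x i)]
      have := hvM i x
      gcongr
    exact hS.integrable_mul hm3
  have hi2 : Integrable (fun x => (∑ i, v x i * pd i (hj κ γ R v j) x) * hj κ γ R v j x)
      (volume : Measure E) := by
    have hS : MemLp (fun x => ∑ i, v x i * pd i (hj κ γ R v j) x) 2 (volume : Measure E) := by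
      refine memLp_finsetSum _ fun i _ => ?_
      refine MemLp.of_le_mul (c := M) (hm4 i) ((hvm i).mul (hm4 i).1)
        (Eventually.of_forall fun x => ?_)
      rw [norm_mul, Real.norm_eq_abs (v x i)]
      have := hvM i x
      gcongr
    exact hS.integrable_mul hm3
  have h5 : ∀ x, (∑ i, v x i * pd i (fun y => v y j) x) * hj κ γ R v j x =
      (∑ i, v x i * duj κ γ' R v i j x) * hj κ γ R v j x +
        (∑ i, v x i * pd i (hj κ γ R v j) x) * hj κ γ R v j x := by
    intro x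
    rw [← add_mul, ← Finset.sum_add_distrib]
    congr 1
    refine Finset.sum_congr rfl fun i _ => ?_
    rw [hpd i x]
    ring
  simp_rw [h5]
  rw [integral_add hi1 hi2, htri, add_zero]

/-- the bound of the trilinear term -/
theorem tri_le (hD : Data ν v V F) (hv : ContDiff ℝ 2 v)
    (hvb : ∃ M : ℝ, ∀ x, ‖v x‖ ≤ M) (hκ : Ker κ) (hγ : Ker γ) (hd : Der γ γ') (hR : 0 < R)
    {C : ℝ} (hA : ∀ x, ‖∫ y : E, κ y • v (x - R • y)‖ ≤ C / R) {δ : ℝ} (hδ : 0 < δ)
    (j : Fin 3) :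
    |∫ x : E, (∑ i, v x i * duj κ γ' R v i j x) * hj κ γ R v j x| ≤
      ∑ i, (nm γ * C / 2 * (δ * (∫ x : E, duj κ γ' R v i j x ^ 2) +
          (∫ x : E, hj κ γ R v j x ^ 2) / (δ * R ^ 2)) +
        gs γ' * C / 2 * ((∫ x : E, hj κ γ R v i x ^ 2) +
          ∫ x : E, hj κ γ R v j x ^ 2) / R ^ 2) := by
  have hw := w_bd (R := R) hv.continuous hvb hκ hA
  have hC : 0 ≤ C := by
    have h1 : 0 ≤ C / R := (abs_nonneg _).trans (hw 0 0)
    have h2 := mul_nonneg h1 hR.le
    rwa [div_mul_cancel₀ _ hR.ne'] at h2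
  have hm2 : ∀ i, MemLp (duj κ γ' R v i j) 2 (volume : Measure E) := fun i =>
    mem_real (du_ft hD hκ hγ hd hR i j)
  have hm3 : ∀ j, MemLp (hj κ γ R v j) 2 (volume : Measure E) := fun j =>
    mem_real (h_ft hD hκ hγ hR j)
  have hI2 : ∀ i, Integrable (fun x => duj κ γ' R v i j x ^ 2) (volume : Measure E) :=
    fun i => (hm2 i).integrable_sq
  have hI3 : ∀ j, Integrable (fun x => hj κ γ R v j x ^ 2) (volume : Measure E) :=
    fun j => (hm3 j).integrable_sq
  have hg := gs_nonneg γ'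
  have hn := nm_nonneg γ
  set a1 := nm γ * C / 2 with ha1
  set a2 := gs γ' * C / 2 with ha2
  have ha10 : 0 ≤ a1 := by positivity
  have ha20 : 0 ≤ a2 := by positivity
  have hpt : ∀ x, ‖(∑ i, v x i * duj κ γ' R v i j x) * hj κ γ R v j x‖ ≤
      ∑ i, (a1 * (δ * duj κ γ' R v i j x ^ 2 + hj κ γ R v j x ^ 2 / (δ * R ^ 2)) +
        a2 * (hj κ γ R v i x ^ 2 + hj κ γ R v j x ^ 2) / R ^ 2) := by
    intro x
    rw [Finset.sum_mul]
    refine (norm_sum_le _ _).trans (Finset.sum_le_sum fun i _ => ?_)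
    have hvi : v x i = uj κ γ R v i x + hj κ γ R v i x := by unfold hj; ring
    have b1 := u_bd hγ hw i x
    have b2 := du_bd hd hR hw i j x
    set U := uj κ γ R v i x
    set H := hj κ γ R v i x
    set G := hj κ γ R v j x
    set P := duj κ γ' R v i j x
    rw [hvi, norm_mul, norm_mul, Real.norm_eq_abs, Real.norm_eq_abs, Real.norm_eq_abs]
    have c1 : |U + H| * |P| * |G| ≤ |U| * |P| * |G| + |H| * |P| * |G| := by
      calc |U + H| * |P| * |G| ≤ (|U| + |H|) * |P| * |G| := by gcongr; exact abs_add_le _ _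
        _ = _ := by ring
    have c2 : |U| * |P| * |G| ≤ a1 * (δ * P ^ 2 + G ^ 2 / (δ * R ^ 2)) := by
      have d1 : |P| * |G| ≤ (δ * R * P ^ 2 + G ^ 2 / (δ * R)) / 2 := by
        have hs : 0 < δ * R := by positivity
        have d2 : 2 * (δ * R) * (|P| * |G|) ≤ (δ * R) ^ 2 * P ^ 2 + G ^ 2 := by
          have := sq_nonneg (δ * R * |P| - |G|)
          rw [← sq_abs P, ← sq_abs G]
          nlinarith
        have d3 : (δ * R * P ^ 2 + G ^ 2 / (δ * R)) / 2 =
            ((δ * R) ^ 2 * P ^ 2 + G ^ 2) / (2 * (δ * R)) := by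
          field_simp
        rw [d3, le_div_iff₀ (by positivity)]
        linarith
      calc |U| * |P| * |G| = |U| * (|P| * |G|) := by ring
        _ ≤ (nm γ * (C / R)) * ((δ * R * P ^ 2 + G ^ 2 / (δ * R)) / 2) := by gcongr
        _ = a1 * (δ * P ^ 2 + G ^ 2 / (δ * R ^ 2)) := by
            rw [ha1]
            field_simp
    have c3 : |H| * |P| * |G| ≤ a2 * (H ^ 2 + G ^ 2) / R ^ 2 := by
      have d1 : |H| * |G| ≤ (H ^ 2 + G ^ 2) / 2 := by
        have := sq_nonneg (|H| - |G|)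
        rw [← sq_abs H, ← sq_abs G]
        nlinarith
      calc |H| * |P| * |G| = |P| * (|H| * |G|) := by ring
        _ ≤ (R⁻¹ * (gs γ' * (C / R))) * ((H ^ 2 + G ^ 2) / 2) := by gcongr
        _ = a2 * (H ^ 2 + G ^ 2) / R ^ 2 := by
            rw [ha2]
            field_simp
    linarith
  have hint : ∀ i, Integrable (fun x => a1 * (δ * duj κ γ' R v i j x ^ 2 +
      hj κ γ R v j x ^ 2 / (δ * R ^ 2)) + a2 * (hj κ γ R v i x ^ 2 + hj κ γ R v j x ^ 2) / R ^ 2)
      (volume : Measure E) := fun i =>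
    ((((hI2 i).const_mul δ).add ((hI3 j).div_const _)).const_mul a1).add
      ((((hI3 i).add (hI3 j)).const_mul a2).div_const _)
  have h6 := norm_integral_le_of_norm_le (integrable_finsetSum _ fun i _ => hint i)
    (Eventually.of_forall hpt)
  rw [Real.norm_eq_abs] at h6
  refine h6.trans (le_of_eq ?_)
  rw [integral_finsetSum _ fun i _ => hint i]
  refine Finset.sum_congr rfl fun i _ => ?_
  have i1 : Integrable (fun x => δ * duj κ γ' R v i j x ^ 2) (volume : Measure E) :=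
    (hI2 i).const_mul δ
  have i2 : Integrable (fun x => hj κ γ R v j x ^ 2 / (δ * R ^ 2)) (volume : Measure E) :=
    (hI3 j).div_const _
  have i3 : Integrable (fun x => a1 * (δ * duj κ γ' R v i j x ^ 2 +
      hj κ γ R v j x ^ 2 / (δ * R ^ 2))) (volume : Measure E) := (i1.add i2).const_mul a1
  have i4 : Integrable (fun x => a2 * (hj κ γ R v i x ^ 2 + hj κ γ R v j x ^ 2) / R ^ 2)
      (volume : Measure E) := (((hI3 i).add (hI3 j)).const_mul a2).div_const _
  rw [integral_add i3 i4, integral_const_mul, integral_add i1 i2, integral_const_mul,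
    integral_div, integral_div, integral_const_mul, integral_add (hI3 i) (hI3 j)]

end

end SNS.AVG
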