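import Pool.Agent.AVG.Mul

/-! AVG: assembly. -/

open MeasureTheory Filter Topology Set
open scoped FourierTransform SchwartzMap ContDiff ComplexConjugate RealInnerProductSpace

namespace SNS.AVG

/-- the spectral data of a D-solution -/
structure Data (ν : ℝ) (v : E → E) (V : E → C3) (F : Fin 3 → E → ℂ) : Prop where
  good : Good V
  inv : ∀ j x, (v x j : ℂ) = 𝓕⁻ (fun ξ => V ξ j) x
  grad : ∀ i j, IsFT (fun x => ((pd i (fun y => v y j) x : ℝ) : ℂ))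
    (fun ξ => 2 * Real.pi * Complex.I * (ξ i : ℂ) * V ξ j)
  nl : ∀ j, IsFT (MAIN.Nl v j) (F j)
  mom : ∀ᵐ ξ : E, ∑ j, F j ξ * conj (V ξ j) =
    ((-(4 * Real.pi ^ 2 * ν * ‖ξ‖ ^ 2 * ‖V ξ‖ ^ 2) : ℝ) : ℂ)
  en : Integrable (FIN.en V) (volume : Measure E)

theorem exists_data {ν : ℝ} {v : E → E} {p : E → ℝ} (hν : 0 < ν) (hv : ContDiff ℝ 2 v)
    (hp : Differentiable ℝ p) (hNS : SteadyNS ν v p) (h0 : Tendsto v (cocompact E) (𝓝 0))
    (h2 : ∀ i j, MemLp (G v i j) 2 (volume : Measure E)) :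
    ∃ V F, Data ν v V F ∧ dens v h2 =ᵐ[volume] fun ξ => 4 * Real.pi ^ 2 * FIN.en V ξ := by
  have hN := MAIN.Nl_mem hv h0 h2
  obtain ⟨V, hV, hGV, hE⟩ := choice hν (fun i j => (Gh v h2 i j : E → ℂ))
    (fun j => (MAIN.F hN j : E → ℂ)) (fun i j => Lp.memLp _) (fun j => Lp.memLp _)
    (MAIN.curl_ae hv h2) (MAIN.div_ae hv hNS h2)
    (fun i j => IsFT.real (g := pd i (fun y => v y j)) (MAIN.isFT_G h2 i j))
    (MAIN.press_ae hv hp hNS h2 hN)
  have hd : dens v h2 =ᵐ[volume] fun ξ => 4 * Real.pi ^ 2 * FIN.en V ξ := MAIN.dens_eq h2 hGV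
  have hft : ∀ i j, IsFT (G v i j) (fun ξ => 2 * Real.pi * Complex.I * (ξ i : ℂ) * V ξ j) :=
    fun i j => (MAIN.isFT_G h2 i j).congr EventuallyEq.rfl (hGV i j)
  refine ⟨V, fun j => (MAIN.F hN j : E → ℂ), ⟨hV, fun j => ?_, fun i j => hft i j,
    fun j => MAIN.isFT_F hN j, hE, FIN.en_integrable h2 hd⟩, hd⟩
  refine inversion (w := fun y => v y j) ((MAIN.comp_contDiff hv j).of_le (by norm_num)) ?_
    (MAIN.comp_int hV.int j) (fun i => hft i j)
  have h1 := ((EuclideanSpace.proj j : E →L[ℝ] ℝ).continuous.tendsto 0).comp h0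
  simpa [Function.comp_def] using h1

/-- the average of `v_j` -/
noncomputable def wj (κ : E → ℝ) (R : ℝ) (v : E → E) (j : Fin 3) (x : E) : ℝ :=
  ∫ y : E, κ y * v (x - R • y) j

/-- the smoothed average of `v_j` -/
noncomputable def uj (κ γ : E → ℝ) (R : ℝ) (v : E → E) (j : Fin 3) (x : E) : ℝ :=
  ∫ z : E, γ z * wj κ R v j (x - R • z)

/-- the derivative of the smoothed average -/
noncomputable def duj (κ : E → ℝ) (γ' : Fin 3 → E → ℝ) (R : ℝ) (v : E → E) (i j : Fin 3)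
    (x : E) : ℝ := R⁻¹ * ∫ z : E, γ' i z * wj κ R v j (x - R • z)

/-- the oscillation -/
noncomputable def hj (κ γ : E → ℝ) (R : ℝ) (v : E → E) (j : Fin 3) (x : E) : ℝ :=
  v x j - uj κ γ R v j x

section

variable {ν : ℝ} {v : E → E} {V : E → C3} {F : Fin 3 → E → ℂ} {κ γ : E → ℝ}
  {γ' : Fin 3 → E → ℝ} {R : ℝ}

theorem Vj_int (hD : Data ν v V F) (j : Fin 3) : Integrable (fun ξ => V ξ j) (volume : Measure E) :=
  MAIN.comp_int hD.good.int j

theorem Vj_norm (V : E → C3) (ξ : E) (j : Fin 3) : ‖V ξ j‖ ≤ ‖V ξ‖ := PiLp.norm_apply_le _ _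

theorem char_int {W : E → ℂ} (hW : Integrable W (volume : Measure E)) (x : E) :
    Integrable (fun ξ : E => Real.fourierChar (⟪ξ, x⟫) • W ξ) (volume : Measure E) := by
  have h := (Real.fourierIntegral_convergent_iff (μ := (volume : Measure E)) (f := W) (-x)).2 hW
  simpa only [inner_neg_right, neg_neg] using h

theorem w_inv (hD : Data ν v V F) (hκ : Ker κ) (R : ℝ) (j : Fin 3) (x : E) :
    (wj κ R v j x : ℂ) = 𝓕⁻ (fun ξ => kf κ (R • ξ) * V ξ j) x := by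
  have h := conv (g := fun y => (κ y : ℂ)) hκ.int.ofReal (Vj_int hD j) R x
  have h1 : 𝓕⁻ (fun ξ => kf κ (R • ξ) * V ξ j) x =
      ∫ y : E, (κ y : ℂ) * 𝓕⁻ (fun ξ => V ξ j) (x - R • y) := h
  rw [h1]
  unfold wj
  rw [← integral_complex_ofReal]
  refine integral_congr_ae (Eventually.of_forall fun y => ?_)
  simp only
  rw [← hD.inv j]
  push_cast
  ring

theorem kV_int (hD : Data ν v V F) (hκ : Ker κ) (R : ℝ) (j : Fin 3) :
    Integrable (fun ξ => kf κ (R • ξ) * V ξ j) (volume : Measure E) := by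
  refine (Vj_int hD j).bdd_mul (c := nm κ) ?_ ?_
  · exact ((kf_cont hκ.int).comp (continuous_const_smul R)).aestronglyMeasurable
  · exact Eventually.of_forall fun ξ => kf_norm κ _

theorem mV_int (hD : Data ν v V F) (hκ : Ker κ) (hγ : Ker γ) (R : ℝ) (j : Fin 3) :
    Integrable (fun ξ => mu κ γ R ξ * V ξ j) (volume : Measure E) := by
  refine (Vj_int hD j).bdd_mul (c := nm γ * nm κ) ?_ ?_
  · exact (mu_cont hκ hγ R).aestronglyMeasurable
  · exact Eventually.of_forall fun ξ => mu_norm κ γ R ξ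

theorem u_inv (hD : Data ν v V F) (hκ : Ker κ) (hγ : Ker γ) (R : ℝ) (j : Fin 3) (x : E) :
    (uj κ γ R v j x : ℂ) = 𝓕⁻ (fun ξ => mu κ γ R ξ * V ξ j) x := by
  have h := conv (g := fun y => (γ y : ℂ)) hγ.int.ofReal (kV_int hD hκ R j) R x
  have h1 : 𝓕⁻ (fun ξ => mu κ γ R ξ * V ξ j) x =
      ∫ y : E, (γ y : ℂ) * 𝓕⁻ (fun ξ => kf κ (R • ξ) * V ξ j) (x - R • y) := by
    rw [← h]
    refine congrArg (fun f : E → ℂ => 𝓕⁻ f x) (funext fun ξ => ?_)
    unfold mu kf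
    ring
  rw [h1]
  unfold uj
  rw [← integral_complex_ofReal]
  refine integral_congr_ae (Eventually.of_forall fun y => ?_)
  simp only
  rw [← w_inv hD hκ R j]
  push_cast
  ring

theorem du_inv (hD : Data ν v V F) (hκ : Ker κ) (hd : Der γ γ') (hR : 0 < R)
    (i j : Fin 3) (x : E) :
    𝓕⁻ (fun ξ : E => 2 * Real.pi * Complex.I * (ξ i : ℂ) * (mu κ γ R ξ * V ξ j)) x =
      (duj κ γ' R v i j x : ℂ) := by
  have h := conv (g := fun y => (γ' i y : ℂ)) (hd.int i).ofReal (kV_int hD hκ R j) R x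
  have hR' : (R : ℂ) ≠ 0 := by exact_mod_cast hR.ne'
  have h1 : (fun ξ : E => 2 * Real.pi * Complex.I * (ξ i : ℂ) * (mu κ γ R ξ * V ξ j)) =
      fun ξ : E => (R : ℂ)⁻¹ * (kf (γ' i) (R • ξ) * (kf κ (R • ξ) * V ξ j)) := by
    funext ξ
    rw [hd.ft i (R • ξ)]
    have e : ((R • ξ) i : ℝ) = R * ξ i := by simp
    rw [e]
    unfold mu
    push_cast
    field_simp
  rw [h1]
  have h2 : 𝓕⁻ (fun ξ : E => (R : ℂ)⁻¹ * (kf (γ' i) (R • ξ) * (kf κ (R • ξ) * V ξ j))) x =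
      (R : ℂ)⁻¹ * 𝓕⁻ (fun ξ : E => kf (γ' i) (R • ξ) * (kf κ (R • ξ) * V ξ j)) x := by
    rw [Real.fourierInv_eq, Real.fourierInv_eq, ← integral_const_mul]
    refine integral_congr_ae (Eventually.of_forall fun ξ => ?_)
    simp only [Circle.smul_def, smul_eq_mul]
    ring
  rw [h2]
  have h3 : 𝓕⁻ (fun ξ : E => kf (γ' i) (R • ξ) * (kf κ (R • ξ) * V ξ j)) x =
      ∫ y : E, (γ' i y : ℂ) * 𝓕⁻ (fun ξ => kf κ (R • ξ) * V ξ j) (x - R • y) := h
  rw [h3]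
  unfold duj
  push_cast
  congr 1
  rw [← integral_complex_ofReal]
  refine integral_congr_ae (Eventually.of_forall fun y => ?_)
  simp only
  rw [← w_inv hD hκ R j]
  push_cast
  ring

theorem h_inv (hD : Data ν v V F) (hκ : Ker κ) (hγ : Ker γ) (R : ℝ) (j : Fin 3) (x : E) :
    (hj κ γ R v j x : ℂ) = 𝓕⁻ (fun ξ => (1 - mu κ γ R ξ) * V ξ j) x := by
  unfold hj
  push_cast
  rw [hD.inv j x, u_inv hD hκ hγ R j x, Real.fourierInv_eq, Real.fourierInv_eq,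
    Real.fourierInv_eq, ← integral_sub]
  · refine integral_congr_ae (Eventually.of_forall fun ξ => ?_)
    simp only [Circle.smul_def, smul_eq_mul]
    ring
  · exact char_int (Vj_int hD j) x
  · exact char_int (mV_int hD hκ hγ R j) x

theorem oV_int (hD : Data ν v V F) (hκ : Ker κ) (hγ : Ker γ) (R : ℝ) (j : Fin 3) :
    Integrable (fun ξ => (1 - mu κ γ R ξ) * V ξ j) (volume : Measure E) := by
  refine (Vj_int hD j).bdd_mul (c := 1 + nm γ * nm κ) ?_ ?_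
  · exact (continuous_const.sub (mu_cont hκ hγ R)).aestronglyMeasurable
  · exact Eventually.of_forall fun ξ => one_sub_mu κ γ R ξ

theorem Vj_meas (hD : Data ν v V F) (j : Fin 3) : Measurable (fun ξ => V ξ j) :=
  (EuclideanSpace.proj j : C3 →L[ℂ] ℂ).measurable.comp hD.good.meas

theorem h_ft (hD : Data ν v V F) (hκ : Ker κ) (hγ : Ker γ) (hR : 0 < R) (j : Fin 3) :
    IsFT (fun x => (hj κ γ R v j x : ℂ)) (fun ξ => (1 - mu κ γ R ξ) * V ξ j) := by
  have h1 : MemLp (fun ξ => (1 - mu κ γ R ξ) * V ξ j) 2 (volume : Measure E) := by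
    refine MemLp.of_le_mul (c := c1 κ γ * R) hD.good.l2 ?_ (Eventually.of_forall fun ξ => ?_)
    · exact ((continuous_const.sub (mu_cont hκ hγ R)).measurable.mul
        (Vj_meas hD j)).aestronglyMeasurable
    · rw [norm_mul, norm_mul, norm_norm, norm_norm]
      have a := one_sub_mu' hκ hγ hR ξ
      have b := Vj_norm V ξ j
      have c := c1_nonneg κ γ
      calc ‖1 - mu κ γ R ξ‖ * ‖V ξ j‖ ≤ (c1 κ γ * (R * ‖ξ‖)) * ‖V ξ‖ := by gcongr
        _ = _ := by ring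
  have h2 := isFT_inv (oV_int hD hκ hγ R j) h1
  have h3 : 𝓕⁻ (fun ξ => (1 - mu κ γ R ξ) * V ξ j) = fun x => (hj κ γ R v j x : ℂ) :=
    funext fun x => (h_inv hD hκ hγ R j x).symm
  rw [h3] at h2
  exact h2

theorem dV_norm (hD : Data ν v V F) (hd : Der γ γ') (hR : 0 < R) (i j : Fin 3) (ξ : E) :
    ‖ξ‖ * ‖mu κ γ R ξ * V ξ j‖ ≤ gs γ' * nm κ / R * ‖V ξ‖ := by
  have a := mu_bound (κ := κ) hd hR ξ
  have b := Vj_norm V ξ j
  rw [norm_mul, div_mul_eq_mul_div, le_div_iff₀ hR]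
  have h0 := gs_nonneg γ'
  have h1 := nm_nonneg κ
  calc ‖ξ‖ * (‖mu κ γ R ξ‖ * ‖V ξ j‖) * R = (R * ‖ξ‖ * ‖mu κ γ R ξ‖) * ‖V ξ j‖ := by ring
    _ ≤ (gs γ' * nm κ) * ‖V ξ‖ := by gcongr

theorem u_der (hD : Data ν v V F) (hκ : Ker κ) (hγ : Ker γ) (hd : Der γ γ') (hR : 0 < R)
    (j : Fin 3) : ContDiff ℝ 1 (uj κ γ R v j) ∧
      ∀ i x, pd i (uj κ γ R v j) x = duj κ γ' R v i j x := by
  have h1 : Integrable (fun ξ : E => ‖ξ‖ * ‖mu κ γ R ξ * V ξ j‖) (volume : Measure E) := by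
    refine (hD.good.int.norm.const_mul (gs γ' * nm κ / R)).mono' ?_
      (Eventually.of_forall fun ξ => ?_)
    · exact (measurable_norm.mul (((mu_cont hκ hγ R).measurable.mul
        (Vj_meas hD j)).norm)).aestronglyMeasurable
    · rw [Real.norm_of_nonneg (by positivity)]
      exact dV_norm hD hd hR j j ξ
  obtain ⟨hC, hDc⟩ := der (mV_int hD hκ hγ R j) h1
  have hu : (𝓕⁻ (fun ξ => mu κ γ R ξ * V ξ j) : E → ℂ) = fun x => (uj κ γ R v j x : ℂ) :=
    funext fun x => (u_inv hD hκ hγ R j x).symm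
  rw [hu] at hC hDc
  have hre : uj κ γ R v j = fun x => Complex.reCLM (uj κ γ R v j x : ℂ) := by
    funext x; simp
  have hC' : ContDiff ℝ 1 (uj κ γ R v j) := by
    rw [hre]
    exact Complex.reCLM.contDiff.comp hC
  refine ⟨hC', fun i x => ?_⟩
  have h2 := hDc i x
  rw [du_inv hD hκ hd hR i j x] at h2
  have h3 : Dc (bb i) (fun x => (uj κ γ R v j x : ℂ)) x = ((pd i (uj κ γ R v j) x : ℝ) : ℂ) := by
    unfold Dc pd bb
    have h4 : HasFDerivAt (fun x => (uj κ γ R v j x : ℂ))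
        (Complex.ofRealCLM.comp (fderiv ℝ (uj κ γ R v j) x)) x :=
      Complex.ofRealCLM.hasFDerivAt.comp x
        ((hC'.differentiable (by norm_num)) x).hasFDerivAt
    rw [h4.fderiv]
    simp
  rw [h3] at h2
  exact_mod_cast h2

theorem du_ft (hD : Data ν v V F) (hκ : Ker κ) (hγ : Ker γ) (hd : Der γ γ') (hR : 0 < R)
    (i j : Fin 3) :
    IsFT (fun x => (duj κ γ' R v i j x : ℂ))
      (fun ξ : E => 2 * Real.pi * Complex.I * (ξ i : ℂ) * (mu κ γ R ξ * V ξ j)) := by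
  have hci : Continuous fun ξ : E => 2 * Real.pi * Complex.I * (ξ i : ℂ) :=
    continuous_const.mul (Complex.continuous_ofReal.comp
      (EuclideanSpace.proj i : E →L[ℝ] ℝ).continuous)
  have hm : AEStronglyMeasurable (fun ξ : E => 2 * Real.pi * Complex.I * (ξ i : ℂ) *
      (mu κ γ R ξ * V ξ j)) (volume : Measure E) :=
    (hci.measurable.mul ((mu_cont hκ hγ R).measurable.mul (Vj_meas hD j))).aestronglyMeasurable
  have hn : ∀ ξ : E, ‖2 * Real.pi * Complex.I * (ξ i : ℂ) * (mu κ γ R ξ * V ξ j)‖ ≤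
      2 * Real.pi * (‖ξ‖ * ‖mu κ γ R ξ * V ξ j‖) := by
    intro ξ
    rw [norm_mul]
    simp only [norm_mul, Complex.norm_I, Complex.norm_real, RCLike.norm_ofNat, mul_one,
      Real.norm_of_nonneg Real.pi_pos.le]
    have h1 : ‖ξ i‖ ≤ ‖ξ‖ := PiLp.norm_apply_le ξ i
    calc 2 * Real.pi * ‖ξ i‖ * (‖mu κ γ R ξ‖ * ‖V ξ j‖)
        ≤ 2 * Real.pi * ‖ξ‖ * (‖mu κ γ R ξ‖ * ‖V ξ j‖) := by gcongr
      _ = _ := by ring
  have h1 : Integrable (fun ξ : E => 2 * Real.pi * Complex.I * (ξ i : ℂ) *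
      (mu κ γ R ξ * V ξ j)) (volume : Measure E) := by
    refine (hD.good.int.norm.const_mul (2 * Real.pi * (gs γ' * nm κ / R))).mono' hm
      (Eventually.of_forall fun ξ => ?_)
    refine (hn ξ).trans ?_
    have := dV_norm (κ := κ) hD hd hR i j ξ
    calc 2 * Real.pi * (‖ξ‖ * ‖mu κ γ R ξ * V ξ j‖)
        ≤ 2 * Real.pi * (gs γ' * nm κ / R * ‖V ξ‖) := by gcongr
      _ = _ := by ring
  have h2 : MemLp (fun ξ : E => 2 * Real.pi * Complex.I * (ξ i : ℂ) *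
      (mu κ γ R ξ * V ξ j)) 2 (volume : Measure E) := by
    refine MemLp.of_le_mul (c := 2 * Real.pi * (nm γ * nm κ)) hD.good.l2 hm
      (Eventually.of_forall fun ξ => ?_)
    refine (hn ξ).trans ?_
    rw [norm_mul, norm_mul, norm_norm, norm_norm]
    have a := mu_norm κ γ R ξ
    have b := Vj_norm V ξ j
    have c := nm_nonneg γ
    have d := nm_nonneg κ
    calc 2 * Real.pi * (‖ξ‖ * (‖mu κ γ R ξ‖ * ‖V ξ j‖))
        ≤ 2 * Real.pi * (‖ξ‖ * ((nm γ * nm κ) * ‖V ξ‖)) := by gcongr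
      _ = _ := by ring
  have h3 := isFT_inv h1 h2
  have h4 : 𝓕⁻ (fun ξ : E => 2 * Real.pi * Complex.I * (ξ i : ℂ) * (mu κ γ R ξ * V ξ j)) =
      fun x => (duj κ γ' R v i j x : ℂ) := funext fun x => du_inv hD hκ hd hR i j x
  rw [h4] at h3
  exact h3

end

end SNS.AVG
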