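
import Pool.Agent.AVG.Base

/-! AVG: the multiplier. -/

open MeasureTheory Filter Topology Set
open scoped FourierTransform SchwartzMap ContDiff ComplexConjugate RealInnerProductSpace

namespace SNS.AVG

/-- averaging kernels -/
structure Ker (κ : E → ℝ) : Prop where
  int : Integrable κ (volume : Measure E)
  mom : Integrable (fun y : E => ‖y‖ * ‖κ y‖) (volume : Measure E)
  one : ∫ y : E, κ y = 1

/-- Fourier transform of a real kernel -/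
noncomputable def kf (κ : E → ℝ) (ξ : E) : ℂ := 𝓕 (fun y : E => (κ y : ℂ)) ξ

/-- the multiplier -/
noncomputable def mu (κ γ : E → ℝ) (R : ℝ) (ξ : E) : ℂ := kf γ (R • ξ) * kf κ (R • ξ)

/-- `L¹` norm -/
noncomputable def nm (κ : E → ℝ) : ℝ := ∫ y : E, ‖κ y‖

/-- first moment -/
noncomputable def mm (κ : E → ℝ) : ℝ := ∫ y : E, ‖y‖ * ‖κ y‖

theorem nm_nonneg (κ : E → ℝ) : 0 ≤ nm κ := integral_nonneg fun y => norm_nonneg _

theorem mm_nonneg (κ : E → ℝ) : 0 ≤ mm κ :=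
  integral_nonneg fun y => mul_nonneg (norm_nonneg _) (norm_nonneg _)

theorem kf_norm (κ : E → ℝ) (ξ : E) : ‖kf κ ξ‖ ≤ nm κ := ker_norm ξ

theorem kf_sub {κ : E → ℝ} (h : Ker κ) (ξ : E) : ‖1 - kf κ ξ‖ ≤ 2 * Real.pi * ‖ξ‖ * mm κ :=
  ker_sub h.int h.mom h.one ξ

theorem kf_cont {κ : E → ℝ} (h : Integrable κ (volume : Measure E)) : Continuous (kf κ) := by
  have h1 : (kf κ : E → ℂ) = fun ξ => 𝓕⁻ (fun y : E => (κ y : ℂ)) (-ξ) := by
    funext ξ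
    unfold kf
    rw [Real.fourierInv_eq_fourier_neg, neg_neg]
  rw [h1]
  exact (INV.continuous_inv h.ofReal).comp continuous_neg

theorem mu_cont {κ γ : E → ℝ} (h : Ker κ) (h' : Ker γ) (R : ℝ) : Continuous (mu κ γ R) := by
  unfold mu
  exact ((kf_cont h'.int).comp (continuous_const_smul R)).mul
    ((kf_cont h.int).comp (continuous_const_smul R))

theorem mu_norm (κ γ : E → ℝ) (R : ℝ) (ξ : E) : ‖mu κ γ R ξ‖ ≤ nm γ * nm κ := by
  unfold mu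
  rw [norm_mul]
  exact mul_le_mul (kf_norm _ _) (kf_norm _ _) (norm_nonneg _) (nm_nonneg _)

theorem one_sub_mu (κ γ : E → ℝ) (R : ℝ) (ξ : E) : ‖1 - mu κ γ R ξ‖ ≤ 1 + nm γ * nm κ := by
  refine (norm_sub_le _ _).trans ?_
  rw [norm_one]
  have := mu_norm κ γ R ξ
  linarith

/-- the Lipschitz constant -/
noncomputable def c1 (κ γ : E → ℝ) : ℝ := 2 * Real.pi * (mm κ + nm κ * mm γ)

theorem c1_nonneg (κ γ : E → ℝ) : 0 ≤ c1 κ γ := by
  unfold c1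
  have := mm_nonneg κ
  have := mm_nonneg γ
  have := nm_nonneg κ
  positivity

theorem one_sub_mu' {κ γ : E → ℝ} (h : Ker κ) (h' : Ker γ) {R : ℝ} (hR : 0 < R) (ξ : E) :
    ‖1 - mu κ γ R ξ‖ ≤ c1 κ γ * (R * ‖ξ‖) := by
  have e : 1 - mu κ γ R ξ =
      (1 - kf κ (R • ξ)) + kf κ (R • ξ) * (1 - kf γ (R • ξ)) := by
    unfold mu; ring
  have hn : ‖R • ξ‖ = R * ‖ξ‖ := by rw [norm_smul, Real.norm_of_nonneg hR.le]
  have a := kf_sub h (R • ξ)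
  have b := kf_sub h' (R • ξ)
  have c := kf_norm κ (R • ξ)
  rw [hn] at a b
  have hk := nm_nonneg κ
  have hm := mm_nonneg γ
  rw [e]
  calc ‖(1 - kf κ (R • ξ)) + kf κ (R • ξ) * (1 - kf γ (R • ξ))‖
      ≤ ‖1 - kf κ (R • ξ)‖ + ‖kf κ (R • ξ)‖ * ‖1 - kf γ (R • ξ)‖ := by
        refine (norm_add_le _ _).trans ?_
        rw [norm_mul]
    _ ≤ 2 * Real.pi * (R * ‖ξ‖) * mm κ + nm κ * (2 * Real.pi * (R * ‖ξ‖) * mm γ) := by
        gcongr
    _ = _ := by unfold c1; ring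

/-- the extra data of the smooth kernel -/
structure Der (γ : E → ℝ) (γ' : Fin 3 → E → ℝ) : Prop where
  int : ∀ i, Integrable (γ' i) (volume : Measure E)
  ft : ∀ i ξ, kf (γ' i) ξ = 2 * Real.pi * Complex.I * (ξ i : ℂ) * kf γ ξ

theorem Der.bound {γ : E → ℝ} {γ' : Fin 3 → E → ℝ} (h : Der γ γ') (i : Fin 3) (ξ : E) :
    |ξ i| * ‖kf γ ξ‖ ≤ nm (γ' i) := by
  have h1 := kf_norm (γ' i) ξ
  rw [h.ft] at h1
  simp only [norm_mul, Complex.norm_I, Complex.norm_real, RCLike.norm_ofNat, mul_one,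
    Real.norm_of_nonneg Real.pi_pos.le, Real.norm_eq_abs] at h1
  have h2 : 0 ≤ |ξ i| * ‖kf γ ξ‖ := by positivity
  have h3 := Real.pi_gt_three
  nlinarith

/-- sum of the `L¹` norms -/
noncomputable def gs (γ' : Fin 3 → E → ℝ) : ℝ := ∑ i, nm (γ' i)

theorem gs_nonneg (γ' : Fin 3 → E → ℝ) : 0 ≤ gs γ' := Finset.sum_nonneg fun i _ => nm_nonneg _

theorem nm_le_gs (γ' : Fin 3 → E → ℝ) (i : Fin 3) : nm (γ' i) ≤ gs γ' :=
  Finset.single_le_sum (f := fun i => nm (γ' i)) (fun i _ => nm_nonneg _) (Finset.mem_univ i)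

theorem norm_le_sum (ξ : E) : ‖ξ‖ ≤ ∑ i, |ξ i| := by
  have h1 : ‖ξ‖ ^ 2 ≤ (∑ i, |ξ i|) ^ 2 := by
    rw [EuclideanSpace.norm_sq_eq]
    simp only [Fin.sum_univ_three, Real.norm_eq_abs]
    nlinarith [abs_nonneg (ξ 0), abs_nonneg (ξ 1), abs_nonneg (ξ 2),
      mul_nonneg (abs_nonneg (ξ 0)) (abs_nonneg (ξ 1)),
      mul_nonneg (abs_nonneg (ξ 0)) (abs_nonneg (ξ 2)),
      mul_nonneg (abs_nonneg (ξ 1)) (abs_nonneg (ξ 2))]
  exact (pow_le_pow_iff_left₀ (norm_nonneg _) (Finset.sum_nonneg fun i _ => abs_nonneg _)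
    two_ne_zero).1 h1

theorem Der.bound' {γ : E → ℝ} {γ' : Fin 3 → E → ℝ} (h : Der γ γ') (ξ : E) :
    ‖ξ‖ * ‖kf γ ξ‖ ≤ gs γ' := by
  calc ‖ξ‖ * ‖kf γ ξ‖ ≤ (∑ i, |ξ i|) * ‖kf γ ξ‖ := by gcongr; exact norm_le_sum ξ
    _ = ∑ i, |ξ i| * ‖kf γ ξ‖ := Finset.sum_mul _ _ _
    _ ≤ _ := Finset.sum_le_sum fun i _ => h.bound i ξ

theorem mu_bound {κ γ : E → ℝ} {γ' : Fin 3 → E → ℝ} (h : Der γ γ') {R : ℝ} (hR : 0 < R)
    (ξ : E) : R * ‖ξ‖ * ‖mu κ γ R ξ‖ ≤ gs γ' * nm κ := by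
  have h1 := h.bound' (R • ξ)
  rw [norm_smul, Real.norm_of_nonneg hR.le] at h1
  unfold mu
  rw [norm_mul, ← mul_assoc]
  exact mul_le_mul h1 (kf_norm _ _) (norm_nonneg _) (gs_nonneg _)

theorem mu_tendsto {κ γ : E → ℝ} {γ' : Fin 3 → E → ℝ} (h : Der γ γ') {ξ : E} (hξ : ξ ≠ 0) :
    Tendsto (fun R : ℝ => mu κ γ R ξ) atTop (𝓝 0) := by
  rw [tendsto_zero_iff_norm_tendsto_zero]
  have hp : 0 < ‖ξ‖ := norm_pos_iff.2 hξ
  have h1 : Tendsto (fun R : ℝ => gs γ' * nm κ / ‖ξ‖ / R) atTop (𝓝 0) :=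
    tendsto_const_nhds.div_atTop tendsto_id
  refine squeeze_zero' (Eventually.of_forall fun R => norm_nonneg _) ?_ h1
  filter_upwards [eventually_gt_atTop (0 : ℝ)] with R hR
  rw [le_div_iff₀ hR, le_div_iff₀ hp]
  have := mu_bound (κ := κ) h hR ξ
  linarith

variable {V : E → C3}

theorem lim_one {κ γ : E → ℝ} {γ' : Fin 3 → E → ℝ} (h : Ker κ) (h' : Ker γ) (hd : Der γ γ')
    (hi : Integrable (FIN.en V) (volume : Measure E)) :
    Tendsto (fun R : ℝ => ∫ ξ : E, (1 - mu κ γ R ξ).re * FIN.en V ξ) atTop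
      (𝓝 (∫ ξ : E, FIN.en V ξ)) := by
  have e : ∫ ξ : E, FIN.en V ξ = ∫ ξ : E, (1 : ℝ) * FIN.en V ξ := by simp
  rw [e]
  refine tendsto_integral_filter_of_dominated_convergence
    (fun ξ => (1 + nm γ * nm κ) * FIN.en V ξ) ?_ ?_ (hi.const_mul _) ?_
  · refine Eventually.of_forall fun R => ?_
    exact (Complex.continuous_re.comp
      (continuous_const.sub (mu_cont h h' R))).aestronglyMeasurable.mul hi.1
  · refine Eventually.of_forall fun R => Eventually.of_forall fun ξ => ?_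
    rw [norm_mul, Real.norm_of_nonneg (FIN.en_nonneg V ξ)]
    refine mul_le_mul_of_nonneg_right ?_ (FIN.en_nonneg V ξ)
    exact (Complex.abs_re_le_norm _).trans (one_sub_mu κ γ R ξ)
  · have h0 : ∀ᵐ ξ : E, ξ ≠ 0 := (ae_iff).2 (by simp)
    filter_upwards [h0] with ξ hξ
    have h1 : Tendsto (fun R : ℝ => (1 - mu κ γ R ξ).re) atTop (𝓝 ((1 - 0 : ℂ).re)) :=
      (Complex.continuous_re.tendsto _).comp (tendsto_const_nhds.sub (mu_tendsto hd hξ))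
    have h2 : ((1 - 0 : ℂ).re) = 1 := by simp
    rw [h2] at h1
    exact h1.mul_const _

theorem lim_two {κ γ : E → ℝ} {γ' : Fin 3 → E → ℝ} (h : Ker κ) (h' : Ker γ) (hd : Der γ γ')
    (hVm : Measurable V) (hi : Integrable (FIN.en V) (volume : Measure E)) :
    Tendsto (fun R : ℝ => ∫ ξ : E, ‖1 - mu κ γ R ξ‖ ^ 2 * ‖V ξ‖ ^ 2 / R ^ 2) atTop (𝓝 0) := by
  have e : (0 : ℝ) = ∫ ξ : E, (0 : ℝ) := by simp
  rw [e]
  refine tendsto_integral_filter_of_dominated_convergence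
    (fun ξ => c1 κ γ ^ 2 * FIN.en V ξ) ?_ ?_ (hi.const_mul _) ?_
  · refine Eventually.of_forall fun R => ?_
    have h1 : Continuous fun ξ => ‖1 - mu κ γ R ξ‖ ^ 2 :=
      ((continuous_const.sub (mu_cont h h' R)).norm).pow 2
    have h2 : Measurable fun ξ => ‖V ξ‖ ^ 2 := hVm.norm.pow_const 2
    exact ((h1.measurable.mul h2).div_const _).aestronglyMeasurable
  · filter_upwards [eventually_gt_atTop (0 : ℝ)] with R hR
    refine Eventually.of_forall fun ξ => ?_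
    rw [Real.norm_of_nonneg (by positivity), div_le_iff₀ (by positivity)]
    have h1 := one_sub_mu' h h' hR ξ
    calc ‖1 - mu κ γ R ξ‖ ^ 2 * ‖V ξ‖ ^ 2 ≤ (c1 κ γ * (R * ‖ξ‖)) ^ 2 * ‖V ξ‖ ^ 2 := by gcongr
      _ = c1 κ γ ^ 2 * FIN.en V ξ * R ^ 2 := by unfold FIN.en; ring
  · refine Eventually.of_forall fun ξ => ?_
    have h1 : Tendsto (fun R : ℝ => (1 + nm γ * nm κ) ^ 2 * ‖V ξ‖ ^ 2 / R ^ 2) atTop (𝓝 0) :=
      tendsto_const_nhds.div_atTop (tendsto_pow_atTop (by norm_num))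
    refine squeeze_zero (fun R => by positivity) (fun R => ?_) h1
    have h2 := one_sub_mu κ γ R ξ
    gcongr

end SNS.AVG
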