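import Pool.Agent.AVG.Fin
import Pool.Agent.AVG.BMP2

/-! AVG: even kernels, lacunary sequences of scales. -/

open MeasureTheory Filter Topology Set
open scoped FourierTransform SchwartzMap ContDiff ComplexConjugate RealInnerProductSpace

namespace SNS.AVG

/-- second moment -/
noncomputable def m2 (κ : E → ℝ) : ℝ := ∫ y : E, ‖y‖ ^ 2 * ‖κ y‖

theorem m2_nonneg (κ : E → ℝ) : 0 ≤ m2 κ :=
  integral_nonneg fun _ => by positivity

theorem kf_neg {κ : E → ℝ} (h : ∀ y, κ (-y) = κ y) (ξ : E) : kf κ (-ξ) = kf κ ξ := by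
  unfold kf
  rw [Real.fourier_eq, Real.fourier_eq, ← integral_neg_eq_self]
  refine integral_congr_ae (Eventually.of_forall fun y => ?_)
  simp only [h y, inner_neg_left, inner_neg_right, neg_neg]

theorem kf_sub2 {κ : E → ℝ} (h : Ker2 κ) (ξ : E) :
    ‖1 - kf κ ξ‖ ≤ 2 * Real.pi ^ 2 * ‖ξ‖ ^ 2 * m2 κ := by
  have hc : Integrable (fun y : E => (κ y : ℂ)) (volume : Measure E) := h.int.ofReal
  have hi : ∀ ζ : E, Integrable (fun y : E => Real.fourierChar (-⟪y, ζ⟫) • (κ y : ℂ))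
      (volume : Measure E) := fun ζ =>
    (Real.fourierIntegral_convergent_iff (μ := (volume : Measure E))
      (f := fun y : E => (κ y : ℂ)) ζ).2 hc
  have h1 : 2 * (1 - kf κ ξ) = ∫ y : E, (2 * (κ y : ℂ) -
      (Real.fourierChar (-⟪y, ξ⟫) • (κ y : ℂ) + Real.fourierChar (-⟪y, -ξ⟫) • (κ y : ℂ))) := by
    have hi2 : Integrable (fun y : E => Real.fourierChar (-⟪y, ξ⟫) • (κ y : ℂ) +
        Real.fourierChar (-⟪y, -ξ⟫) • (κ y : ℂ)) (volume : Measure E) := (hi ξ).add (hi (-ξ))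
    rw [integral_sub (hc.const_mul 2) hi2, integral_add (hi ξ) (hi (-ξ)),
      integral_const_mul, integral_complex_ofReal, h.one]
    have e1 : ∫ y : E, Real.fourierChar (-⟪y, ξ⟫) • (κ y : ℂ) = kf κ ξ := by
      unfold kf; rw [Real.fourier_eq]
    have e2 : ∫ y : E, Real.fourierChar (-⟪y, -ξ⟫) • (κ y : ℂ) = kf κ ξ := by
      rw [← kf_neg h.even ξ]; unfold kf; rw [Real.fourier_eq]
    rw [e1, e2]
    push_cast
    ring
  have hb : ∀ y : E, ‖2 * (κ y : ℂ) - (Real.fourierChar (-⟪y, ξ⟫) • (κ y : ℂ) +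
      Real.fourierChar (-⟪y, -ξ⟫) • (κ y : ℂ))‖ ≤
      4 * Real.pi ^ 2 * ‖ξ‖ ^ 2 * (‖y‖ ^ 2 * ‖κ y‖) := by
    intro y
    set t : ℝ := 2 * Real.pi * ⟪y, ξ⟫ with ht
    have e1 : (Real.fourierChar (-⟪y, ξ⟫) : ℂ) = Complex.exp (-(t : ℂ) * Complex.I) := by
      rw [Real.fourierChar_apply, ht]
      congr 1
      push_cast
      ring
    have e2 : (Real.fourierChar (-⟪y, -ξ⟫) : ℂ) = Complex.exp ((t : ℂ) * Complex.I) := by
      rw [Real.fourierChar_apply, inner_neg_right, ht]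
      congr 1
      push_cast
      ring
    have e3 : 2 * (κ y : ℂ) - (Real.fourierChar (-⟪y, ξ⟫) • (κ y : ℂ) +
        Real.fourierChar (-⟪y, -ξ⟫) • (κ y : ℂ)) = ((2 * (1 - Real.cos t) * κ y : ℝ) : ℂ) := by
      rw [Circle.smul_def, Circle.smul_def, e1, e2]
      have e4 : Complex.exp ((t : ℂ) * Complex.I) + Complex.exp (-(t : ℂ) * Complex.I) =
          2 * Complex.cos t := (Complex.two_cos (x := (t : ℂ))).symm
      simp only [smul_eq_mul]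
      push_cast
      linear_combination -(κ y : ℂ) * e4
    rw [e3, Complex.norm_real, norm_mul, norm_mul]
    have h5 : 1 - Real.cos t ≤ t ^ 2 / 2 := by
      have := Real.one_sub_sq_div_two_le_cos (x := t)
      linarith
    have h6 : 0 ≤ 1 - Real.cos t := by linarith [Real.cos_le_one t]
    have h7 : |⟪y, ξ⟫| ≤ ‖y‖ * ‖ξ‖ := abs_real_inner_le_norm y ξ
    have h8 : ⟪y, ξ⟫ ^ 2 ≤ ‖y‖ ^ 2 * ‖ξ‖ ^ 2 := by
      rw [← sq_abs, ← mul_pow]
      gcongr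
    rw [Real.norm_of_nonneg h6, Real.norm_of_nonneg (by norm_num : (0 : ℝ) ≤ 2)]
    calc 2 * (1 - Real.cos t) * ‖κ y‖ ≤ 2 * (t ^ 2 / 2) * ‖κ y‖ := by gcongr
      _ = 4 * Real.pi ^ 2 * ⟪y, ξ⟫ ^ 2 * ‖κ y‖ := by rw [ht]; ring
      _ ≤ 4 * Real.pi ^ 2 * (‖y‖ ^ 2 * ‖ξ‖ ^ 2) * ‖κ y‖ := by gcongr
      _ = _ := by ring
  have h9 : ‖2 * (1 - kf κ ξ)‖ ≤ 4 * Real.pi ^ 2 * ‖ξ‖ ^ 2 * m2 κ := by
    rw [h1]
    unfold m2
    rw [← integral_const_mul]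
    exact norm_integral_le_of_norm_le (h.mom2.const_mul _) (Eventually.of_forall hb)
  rw [norm_mul, RCLike.norm_ofNat] at h9
  linarith

/-- the constant -/
noncomputable def c2 (κ γ : E → ℝ) : ℝ := 2 * Real.pi ^ 2 * (m2 κ + nm κ * m2 γ)

theorem c2_nonneg (κ γ : E → ℝ) : 0 ≤ c2 κ γ := by
  unfold c2
  have := m2_nonneg κ
  have := m2_nonneg γ
  have := nm_nonneg κ
  positivity

theorem one_sub_mu2 {κ γ : E → ℝ} (h : Ker2 κ) (h' : Ker2 γ) {R : ℝ} (hR : 0 < R) (ξ : E) :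
    ‖1 - mu κ γ R ξ‖ ≤ c2 κ γ * (R * ‖ξ‖) ^ 2 := by
  have e : 1 - mu κ γ R ξ =
      (1 - kf κ (R • ξ)) + kf κ (R • ξ) * (1 - kf γ (R • ξ)) := by
    unfold mu; ring
  have hn : ‖R • ξ‖ = R * ‖ξ‖ := by rw [norm_smul, Real.norm_of_nonneg hR.le]
  have a := kf_sub2 h (R • ξ)
  have b := kf_sub2 h' (R • ξ)
  have c := kf_norm κ (R • ξ)
  rw [hn] at a b
  have hk := nm_nonneg κ
  have hm := m2_nonneg γ
  rw [e]
  calc ‖(1 - kf κ (R • ξ)) + kf κ (R • ξ) * (1 - kf γ (R • ξ))‖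
      ≤ ‖1 - kf κ (R • ξ)‖ + ‖kf κ (R • ξ)‖ * ‖1 - kf γ (R • ξ)‖ := by
        refine (norm_add_le _ _).trans ?_
        rw [norm_mul]
    _ ≤ 2 * Real.pi ^ 2 * (R * ‖ξ‖) ^ 2 * m2 κ +
        nm κ * (2 * Real.pi ^ 2 * (R * ‖ξ‖) ^ 2 * m2 γ) := by
        gcongr
    _ = _ := by unfold c2; ring

/-- telescoping function -/
noncomputable def tel (s : ℝ) : ℝ := s ^ 2 / (1 + s ^ 2)

theorem tel_le_one (s : ℝ) : tel s ≤ 1 := by
  unfold tel
  rw [div_le_one (by positivity)]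
  linarith

theorem tel_nonneg (s : ℝ) : 0 ≤ tel s := by unfold tel; positivity

theorem tel_step {s t : ℝ} (hs : 0 < s) (ht : 2 * s ≤ t) {w a b : ℝ} (ha : 0 ≤ a) (hb : 0 ≤ b)
    (h1 : w ≤ a * s ^ 2) (h2 : w ≤ b / s ^ 2) :
    w ≤ 10 / 3 * (a + b) * (tel t - tel s) := by
  have h3 : tel (2 * s) ≤ tel t := by
    unfold tel
    rw [div_le_div_iff₀ (by positivity) (by positivity)]
    have : (2 * s) ^ 2 ≤ t ^ 2 := by gcongr
    nlinarith
  have h4 : tel (2 * s) - tel s = 3 * s ^ 2 / ((1 + 4 * s ^ 2) * (1 + s ^ 2)) := by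
    unfold tel
    field_simp
    ring
  have h5 : w ≤ 10 / 3 * (a + b) * (tel (2 * s) - tel s) := by
    rw [h4]
    rcases le_total s 1 with h6 | h6
    · have h7 : s ^ 2 ≤ 1 := by nlinarith
      have h8 : 3 / 10 * s ^ 2 ≤ 3 * s ^ 2 / ((1 + 4 * s ^ 2) * (1 + s ^ 2)) := by
        rw [le_div_iff₀ (by positivity)]
        have : (1 + 4 * s ^ 2) * (1 + s ^ 2) ≤ 10 := by nlinarith
        have h9 : 0 < s ^ 2 := by positivity
        nlinarith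
      calc w ≤ a * s ^ 2 := h1
        _ ≤ (a + b) * s ^ 2 := by gcongr; linarith
        _ = 10 / 3 * (a + b) * (3 / 10 * s ^ 2) := by ring
        _ ≤ _ := by gcongr
    · have h7 : 1 ≤ s ^ 2 := by nlinarith
      have h8 : 3 / 10 * (1 / s ^ 2) ≤ 3 * s ^ 2 / ((1 + 4 * s ^ 2) * (1 + s ^ 2)) := by
        rw [le_div_iff₀ (by positivity)]
        have h10 : (1 + 4 * s ^ 2) * (1 + s ^ 2) ≤ 10 * (s ^ 2 * s ^ 2) := by nlinarith
        calc 3 / 10 * (1 / s ^ 2) * ((1 + 4 * s ^ 2) * (1 + s ^ 2))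
            ≤ 3 / 10 * (1 / s ^ 2) * (10 * (s ^ 2 * s ^ 2)) := by gcongr
          _ = 3 * s ^ 2 := by field_simp
      calc w ≤ b / s ^ 2 := h2
        _ ≤ (a + b) * (1 / s ^ 2) := by
            rw [div_eq_mul_one_div]
            gcongr
            linarith
        _ = 10 / 3 * (a + b) * (3 / 10 * (1 / s ^ 2)) := by ring
        _ ≤ _ := by gcongr
  refine h5.trans ?_
  gcongr

section

variable {ν : ℝ} {v : E → E} {V : E → C3} {F : Fin 3 → E → ℂ} {κ γ : E → ℝ}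
  {γ' : Fin 3 → E → ℝ}

/-- the oscillation energy -/
noncomputable def os (κ γ : E → ℝ) (V : E → C3) (R : ℝ) : ℝ :=
  ∫ ξ : E, ‖1 - mu κ γ R ξ‖ ^ 2 * ‖V ξ‖ ^ 2 / R ^ 2

theorem os_int (hD : Data ν v V F) (hκ : Ker κ) (hγ : Ker γ) {R : ℝ} (hR : 0 < R) :
    Integrable (fun ξ : E => ‖1 - mu κ γ R ξ‖ ^ 2 * ‖V ξ‖ ^ 2 / R ^ 2) (volume : Measure E) := by
  refine (hD.en.const_mul (c1 κ γ ^ 2)).mono' ?_ (Eventually.of_forall fun ξ => ?_)
  · have h1 : Continuous fun ξ => ‖1 - mu κ γ R ξ‖ ^ 2 :=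
      ((continuous_const.sub (mu_cont hκ hγ R)).norm).pow 2
    have h2 : Measurable fun ξ => ‖V ξ‖ ^ 2 := hD.good.meas.norm.pow_const 2
    exact ((h1.measurable.mul h2).div_const _).aestronglyMeasurable
  · rw [Real.norm_of_nonneg (by positivity), div_le_iff₀ (by positivity)]
    have h1 := one_sub_mu' hκ hγ hR ξ
    calc ‖1 - mu κ γ R ξ‖ ^ 2 * ‖V ξ‖ ^ 2 ≤ (c1 κ γ * (R * ‖ξ‖)) ^ 2 * ‖V ξ‖ ^ 2 := by gcongr
      _ = c1 κ γ ^ 2 * FIN.en V ξ * R ^ 2 := by unfold FIN.en; ring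

theorem os_nonneg (κ γ : E → ℝ) (V : E → C3) (R : ℝ) : 0 ≤ os κ γ V R :=
  integral_nonneg fun ξ => by positivity

theorem os_sum (hD : Data ν v V F) (hκ : Ker2 κ) (hγ : Ker2 γ) {R : ℕ → ℝ}
    (hR0 : ∀ n, 0 < R n) (hR : ∀ n, 2 * R n ≤ R (n + 1)) (N : ℕ) :
    ∑ n ∈ Finset.range N, os κ γ V (R n) ≤
      10 / 3 * (c2 κ γ ^ 2 + (1 + nm γ * nm κ) ^ 2) * ∫ ξ : E, FIN.en V ξ := by
  set K := 10 / 3 * (c2 κ γ ^ 2 + (1 + nm γ * nm κ) ^ 2) with hK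
  have hK0 : 0 ≤ K := by positivity
  unfold os
  rw [← integral_finsetSum _ fun n _ => os_int hD hκ.toKer hγ.toKer (hR0 n), ← integral_const_mul]
  refine integral_mono_ae (integrable_finsetSum _ fun n _ =>
    os_int hD hκ.toKer hγ.toKer (hR0 n)) (hD.en.const_mul K) ?_
  have h0 : ∀ᵐ ξ : E, ξ ≠ 0 := (ae_iff).2 (by simp)
  filter_upwards [h0] with ξ hξ
  have hp : 0 < ‖ξ‖ := norm_pos_iff.2 hξ
  have h1 : ∀ n, ‖1 - mu κ γ (R n) ξ‖ ^ 2 * ‖V ξ‖ ^ 2 / R n ^ 2 ≤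
      K * (tel (R (n + 1) * ‖ξ‖) - tel (R n * ‖ξ‖)) * FIN.en V ξ := by
    intro n
    have hRn := hR0 n
    set s := R n * ‖ξ‖ with hs
    have hs0 : 0 < s := by positivity
    have e1 : ‖1 - mu κ γ (R n) ξ‖ ^ 2 * ‖V ξ‖ ^ 2 / R n ^ 2 =
        (‖1 - mu κ γ (R n) ξ‖ ^ 2 / s ^ 2) * FIN.en V ξ := by
      unfold FIN.en
      rw [hs]
      field_simp
    rw [e1]
    have hn1 := one_sub_mu2 hκ hγ hRn ξ
    have hn2 := one_sub_mu κ γ (R n) ξ
    have hst : 2 * s ≤ R (n + 1) * ‖ξ‖ := by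
      calc 2 * s = 2 * R n * ‖ξ‖ := by rw [hs]; ring
        _ ≤ _ := by gcongr; exact hR n
    have h2 := tel_step hs0 hst (w := ‖1 - mu κ γ (R n) ξ‖ ^ 2 / s ^ 2) (sq_nonneg (c2 κ γ))
      (sq_nonneg (1 + nm γ * nm κ)) (by
        rw [div_le_iff₀ (by positivity)]
        calc ‖1 - mu κ γ (R n) ξ‖ ^ 2 ≤ (c2 κ γ * s ^ 2) ^ 2 := by gcongr
          _ = _ := by ring) (by gcongr)
    have h3 := FIN.en_nonneg V ξ
    rw [hK]
    gcongr
  calc ∑ n ∈ Finset.range N, ‖1 - mu κ γ (R n) ξ‖ ^ 2 * ‖V ξ‖ ^ 2 / R n ^ 2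
      ≤ ∑ n ∈ Finset.range N, K * (tel (R (n + 1) * ‖ξ‖) - tel (R n * ‖ξ‖)) * FIN.en V ξ :=
        Finset.sum_le_sum fun n _ => h1 n
    _ = K * (tel (R N * ‖ξ‖) - tel (R 0 * ‖ξ‖)) * FIN.en V ξ := by
        rw [← Finset.sum_mul, ← Finset.mul_sum,
          Finset.sum_range_sub (fun n => tel (R n * ‖ξ‖))]
    _ ≤ K * 1 * FIN.en V ξ := by
        have h3 := FIN.en_nonneg V ξ
        have h4 := tel_le_one (R N * ‖ξ‖)
        have h5 := tel_nonneg (R 0 * ‖ξ‖)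
        gcongr
        linarith
    _ = _ := by rw [mul_one]

/-- lacunary sequences of scales -/
theorem energy_zero2 {p : E → ℝ} (hν : 0 < ν) (hD : Data ν v V F) (hv : ContDiff ℝ 2 v)
    (hNS : SteadyNS ν v p) (hvb : ∃ M : ℝ, ∀ x, ‖v x‖ ≤ M) (hκ : Ker2 κ) {R C : ℕ → ℝ}
    (hR0 : ∀ n, 0 < R n) (hR : ∀ n, 2 * R n ≤ R (n + 1)) (hC : ∀ n, 1 ≤ C n)
    (hns : ¬ Summable fun n => 1 / C n ^ 2)
    (hA : ∀ n x, ‖∫ y : E, κ y • v (x - R n • y)‖ ≤ C n / R n) :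
    ∫ ξ : E, FIN.en V ξ = 0 := by
  obtain ⟨γ, γ', hγ, hd⟩ := bump2
  set D := ∫ ξ : E, FIN.en V ξ with hDdef
  have hD0 : 0 ≤ D := integral_nonneg fun ξ => FIN.en_nonneg V ξ
  have hl1 := lim_one hκ.toKer hγ.toKer hd hD.en
  by_contra hne
  have hDpos : 0 < D := lt_of_le_of_ne hD0 (Ne.symm hne)
  have hn := nm_nonneg γ
  have hg := gs_nonneg γ'
  have hRt : Tendsto R atTop atTop := by
    have h1 : ∀ n, 2 ^ n * R 0 ≤ R n := by
      intro n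
      induction n with
      | zero => simp
      | succ n ih =>
        calc 2 ^ (n + 1) * R 0 = 2 * (2 ^ n * R 0) := by ring
          _ ≤ 2 * R n := by gcongr
          _ ≤ _ := hR n
    refine tendsto_atTop_mono h1 ?_
    exact (tendsto_pow_atTop_atTop_of_one_lt (by norm_num : (1 : ℝ) < 2)).atTop_mul_const (hR0 0)
  set K := nm γ / 2 * (4 * Real.pi ^ 2 * (nm γ * nm κ) ^ 2) with hK
  have hK0 : 0 ≤ K := by positivity
  have t1 : ∀ᶠ n : ℕ in atTop,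
      D / 2 < ∫ ξ : E, (1 - mu κ γ (R n) ξ).re * FIN.en V ξ :=
    hRt.eventually (hl1.eventually (lt_mem_nhds (by linarith)))
  set B := nm γ / 2 * (3 * (K + 1) / (Real.pi ^ 2 * ν)) + gs γ' * 3 with hB
  have hB0 : 0 ≤ B := by positivity
  set c := Real.pi ^ 2 * ν * D with hc
  have hc0 : 0 < c := by positivity
  have key : ∀ᶠ n : ℕ in atTop, ‖1 / C n ^ 2‖ ≤ B / c * os κ γ V (R n) := by
    filter_upwards [t1] with n h1
    have hCn : 0 < C n := lt_of_lt_of_le one_pos (hC n)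
    set δ := Real.pi ^ 2 * ν / (C n * (K + 1)) with hδ
    have hδ0 : 0 < δ := by positivity
    have h3 := main_ineq hD hv hNS hvb hκ.toKer hγ.toKer hd (hR0 n) (hA n) hδ0
    have h6 : 4 * Real.pi ^ 2 * ν * (D / 2) <
        4 * Real.pi ^ 2 * ν * ∫ ξ : E, (1 - mu κ γ (R n) ξ).re * FIN.en V ξ := by
      gcongr
    have h4 : nm γ * C n / 2 * (δ * (4 * Real.pi ^ 2 * (nm γ * nm κ) ^ 2 * D)) ≤ c := by
      have e1 : nm γ * C n / 2 * (δ * (4 * Real.pi ^ 2 * (nm γ * nm κ) ^ 2 * D)) =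
          K * D * (C n * δ) := by rw [hK]; ring
      have e2 : C n * δ = Real.pi ^ 2 * ν / (K + 1) := by
        rw [hδ]; field_simp
      rw [e1, e2, hc, mul_div_assoc', div_le_iff₀ (by positivity)]
      have : 0 ≤ Real.pi ^ 2 * ν * D := by positivity
      nlinarith
    have h5 : nm γ * C n / 2 * (3 / δ) + gs γ' * C n * 3 ≤ B * C n ^ 2 := by
      have e1 : nm γ * C n / 2 * (3 / δ) = nm γ / 2 * (3 * (K + 1) / (Real.pi ^ 2 * ν)) * C n ^ 2 := by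
        rw [hδ]; field_simp
      have e2 : gs γ' * C n * 3 ≤ gs γ' * 3 * C n ^ 2 := by
        have : C n ≤ C n ^ 2 := by nlinarith [hC n]
        calc gs γ' * C n * 3 = gs γ' * 3 * C n := by ring
          _ ≤ _ := by gcongr
      rw [e1, hB, add_mul]
      linarith
    have hos := os_nonneg κ γ V (R n)
    have h7 : c < B * C n ^ 2 * os κ γ V (R n) := by
      have h8 : (nm γ * C n / 2 * (3 / δ) + gs γ' * C n * 3) * os κ γ V (R n) ≤
          B * C n ^ 2 * os κ γ V (R n) := by gcongr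
      have h9 : 4 * Real.pi ^ 2 * ν * (D / 2) = 2 * c := by rw [hc]; ring
      unfold os at h8 ⊢
      linarith
    rw [Real.norm_of_nonneg (by positivity), div_le_iff₀ (by positivity), div_mul_eq_mul_div,
      div_mul_eq_mul_div, le_div_iff₀ hc0]
    linarith
  apply hns
  have hs : Summable fun n => os κ γ V (R n) :=
    summable_of_sum_range_le (fun n => os_nonneg κ γ V (R n)) (os_sum hD hκ hγ hR0 hR)
  exact Summable.of_norm_bounded_eventually_nat (hs.mul_left (B / c)) key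

theorem liouville2 {p : E → ℝ} (hν : 0 < ν) (hv : ContDiff ℝ 2 v) (hp : Differentiable ℝ p)
    (hNS : SteadyNS ν v p) (h0 : Tendsto v (cocompact E) (𝓝 0))
    (h2 : ∀ i j, MemLp (G v i j) 2 (volume : Measure E)) (hκ : Ker2 κ) {R C : ℕ → ℝ}
    (hR0 : ∀ n, 0 < R n) (hR : ∀ n, 2 * R n ≤ R (n + 1)) (hC : ∀ n, 1 ≤ C n)
    (hns : ¬ Summable fun n => 1 / C n ^ 2)
    (hA : ∀ n x, ‖∫ y : E, κ y • v (x - R n • y)‖ ≤ C n / R n) :
    ∀ x, v x = 0 := by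
  obtain ⟨V, F, hD, hd⟩ := exists_data hν hv hp hNS h0 h2
  obtain ⟨M, -, hM⟩ := MAIN.bdd hv h0
  have hz := energy_zero2 hν hD hv hNS ⟨M, hM⟩ hκ hR0 hR hC hns hA
  refine MAIN.zero_of_dens hv h0 h2 ?_
  rw [integral_congr_ae hd, integral_const_mul, hz, mul_zero]

end

end SNS.AVG
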